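import Pool.Agent.H6.RB.Defs

/-!
# Project RB, CYC: the main chain is a cycle
-/

set_option autoImplicit false

noncomputable section

namespace Pool.Agent.H6.RB

open Finset

namespace CYCx

section

variable {V : Type} [LinearOrder V]

theorem pj_insert (x : V ×ₗ Bool) (ρ : Finset (V ×ₗ Bool)) :
    pj (insert x ρ) = insert (ofLex x).1 (pj ρ) := Finset.image_insert _ _ _

theorem mem_pj {ρ : Finset (V ×ₗ Bool)} {v : V} :
    v ∈ pj ρ ↔ toLex (v, true) ∈ ρ ∨ toLex (v, false) ∈ ρ := by
  unfold pj
  rw [Finset.mem_image]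
  constructor
  · rintro ⟨x, hx, rfl⟩
    have e : x = toLex ((ofLex x).1, (ofLex x).2) := rfl
    cases h : (ofLex x).2 with
    | true => left; rw [← h]; exact hx
    | false => right; rw [← h]; exact hx
  · rintro (h | h)
    · exact ⟨_, h, rfl⟩
    · exact ⟨_, h, rfl⟩

theorem mem_Bt {σ τ : Finset (V ×ₗ Bool)} {v : V} :
    v ∈ Bt σ τ ↔ toLex (v, true) ∈ σ ∨ toLex (v, false) ∈ τ := by
  unfold Bt
  rw [Finset.mem_union, mem_pj, mem_pj]
  simp

/-- not both copies -/
theorem not_both {j : ℕ} {τ : Finset (V ×ₗ Bool)} (h1 : τ.card = j + 1) (h2 : (pj τ).card = j + 1)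
    (v : V) (ht : toLex (v, true) ∈ τ) (hf : toLex (v, false) ∈ τ) : False := by
  have h3 : (τ.image fun x => (ofLex x).1).card = τ.card := by
    rw [h1]; exact h2
  rw [Finset.card_image_iff] at h3
  have h4 := h3 (Finset.mem_coe.2 ht) (Finset.mem_coe.2 hf) rfl
  have h5 : (v, true) = (v, false) := toLex.injective h4
  simp at h5

omit [LinearOrder V] in
theorem Sx_mono {G : SimpleGraph V} {C : Set V} {S T : Finset V} (h : Sx G C T) (hS : S ⊆ T) :
    Sx G C S :=
  ⟨h.1.subset (by exact_mod_cast hS), (Finset.coe_subset.2 hS).trans h.2⟩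

theorem inter_insert {v : V} {A w : Finset V} (h : v ∉ w) : insert v A ∩ w = A ∩ w :=
  Finset.insert_inter_of_notMem h

theorem insert_inter' {v : V} {A w : Finset V} (h : v ∈ w) :
    insert v A ∩ w = insert v (A ∩ w) := Finset.insert_inter_of_mem h

/-- the coefficient does not change -/
theorem f_eq [Fintype V] {G : SimpleGraph V} {C : Set V} {j : ℕ} {f : Finset V → Finset V → Finset V → ZMod 2}
    (hf : FF G C j f) {v : V} {A B w : Finset V} (hA : Sx G C (insert v A)) (hB : Sx G C B)
    (hvA : v ∉ A) (hw : w ⊆ A ∪ B) (h : v ∉ w ∨ v ∈ B) :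
    f w (insert v A ∩ w) (B ∩ w) = f w (A ∩ w) (B ∩ w) := by
  by_cases hv : v ∈ w
  · have hvB : v ∈ B := h.resolve_left (fun h => h hv)
    have hmem : v ∈ B ∩ w := Finset.mem_inter.2 ⟨hvB, hv⟩
    have h1 : Sx G C (insert v A ∩ w) := Sx_mono hA Finset.inter_subset_left
    have h2 : Sx G C (B ∩ w) := Sx_mono hB Finset.inter_subset_left
    have h3 : (insert v A ∩ w) ∪ (B ∩ w) = w := by
      rw [← Finset.union_inter_distrib_right]
      refine Finset.inter_eq_right.2 fun y hy => ?_
      rcases Finset.mem_union.1 (hw hy) with h | h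
      · exact Finset.mem_union_left _ (Finset.mem_insert_of_mem h)
      · exact Finset.mem_union_right _ h
    have h4 := hf.loc w _ _ v h1 h2 h3
      (Finset.mem_inter.2 ⟨Finset.mem_insert_self _ _, hv⟩) hmem
    rw [← h4, insert_inter' hv, Finset.erase_insert]
    intro h5
    exact hvA (Finset.mem_inter.1 h5).1
  · rw [inter_insert hv]

end

end CYCx

open CYCx in
/-- RB-CYC -/
theorem cyc : S_CYC := by
  intro V _ _ G C j c f hc hf ρ τ hd
  classical
  by_cases hρ : ρ.card = j
  swap
  · refine Finset.sum_eq_zero fun x hx => ?_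
    rw [Finset.mem_compl, Finset.mem_union, not_or] at hx
    unfold Zf
    rw [if_neg]
    rintro ⟨-, h1, -⟩
    rw [Finset.card_insert_of_notMem hx.1] at h1
    omega
  by_cases hτ : τ.card = j + 1
  swap
  · refine Finset.sum_eq_zero fun x _ => ?_
    unfold Zf
    rw [if_neg fun h => hτ h.2.2]
  by_cases hcτ : c (pj τ) = 0
  · refine Finset.sum_eq_zero fun x _ => ?_
    unfold Zf
    rw [hcτ, mul_zero, zero_mul, ite_self]
  obtain ⟨hSτ, hkτ⟩ := hc.supp _ hcτ
  -- the value for one new vertex
  have hZ : ∀ x : V ×ₗ Bool, x ∉ ρ → x ∉ τ → Zf j c f (insert x ρ) τ =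
      c (insert (ofLex x).1 (pj ρ)) * c (pj τ) *
        ∑ ω ∈ Finset.Icc (Bt (insert x ρ) τ) (insert (ofLex x).1 (pj ρ) ∪ pj τ),
          f ω (insert (ofLex x).1 (pj ρ) ∩ ω) (pj τ ∩ ω) := by
    intro x hx hx'
    unfold Zf
    rw [if_pos, pj_insert]
    refine ⟨?_, ?_, hτ⟩
    · rw [Finset.disjoint_insert_left]
      exact ⟨hx', hd⟩
    · rw [Finset.card_insert_of_notMem hx, hρ]
  have hcard : (pj ρ).card ≤ j := by
    rw [← hρ]
    exact Finset.card_image_le
  obtain ⟨g0, hg0⟩ : ∃ g0, g0 = ∑ ω ∈ Finset.Icc (Bt ρ τ) (pj ρ ∪ pj τ),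
    f ω (pj ρ ∩ ω) (pj τ ∩ ω) := ⟨_, rfl⟩
  -- one vertex
  have key : ∀ v : V,
      (if toLex (v, true) ∈ (ρ ∪ τ)ᶜ then Zf j c f (insert (toLex (v, true)) ρ) τ else 0) +
      (if toLex (v, false) ∈ (ρ ∪ τ)ᶜ then Zf j c f (insert (toLex (v, false)) ρ) τ else 0) =
      if v ∈ (pj ρ)ᶜ then c (insert v (pj ρ)) * (c (pj τ) * g0) else 0 := by
    intro v
    have hv0 : ∀ s : Bool, c (insert v (pj ρ)) = 0 →
        (if toLex (v, s) ∈ (ρ ∪ τ)ᶜ then Zf j c f (insert (toLex (v, s)) ρ) τ else 0) = 0 := by
      intro s h0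
      split_ifs with h
      · rw [Finset.mem_compl, Finset.mem_union, not_or] at h
        rw [hZ _ h.1 h.2]
        change c (insert v (pj ρ)) * _ * _ = 0
        rw [h0, zero_mul, zero_mul]
      · rfl
    by_cases hvρ : v ∈ pj ρ
    · rw [if_neg (fun h => (Finset.mem_compl.1 h) hvρ)]
      have h0 : c (insert v (pj ρ)) = 0 := by
        by_contra h
        have := (hc.supp _ h).2
        rw [Finset.insert_eq_of_mem hvρ] at this
        omega
      rw [hv0 true h0, hv0 false h0, add_zero]
    rw [if_pos (Finset.mem_compl.2 hvρ)]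
    by_cases h0 : c (insert v (pj ρ)) = 0
    · rw [hv0 true h0, hv0 false h0, add_zero, h0, zero_mul]
    obtain ⟨hSv, -⟩ := hc.supp _ h0
    have hnρ : ∀ s : Bool, toLex (v, s) ∉ ρ := by
      intro s hs
      apply hvρ
      rw [mem_pj]
      cases s
      · exact Or.inr hs
      · exact Or.inl hs
    by_cases hvτ : v ∈ pj τ
    · -- one copy is in `τ`
      have hφ : insert v (pj ρ) ∪ pj τ = pj ρ ∪ pj τ := by
        rw [Finset.insert_union, Finset.insert_eq_of_mem (Finset.mem_union_right _ hvτ)]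
      have hval : ∀ s : Bool, toLex (v, !s) ∈ τ → toLex (v, s) ∉ τ →
          Zf j c f (insert (toLex (v, s)) ρ) τ = c (insert v (pj ρ)) * (c (pj τ) * g0) := by
        intro s h1 h2
        rw [hZ _ (hnρ s) h2]
        change c (insert v (pj ρ)) * _ * ∑ ω ∈ Finset.Icc (Bt (insert (toLex (v, s)) ρ) τ)
          (insert v (pj ρ) ∪ pj τ), f ω (insert v (pj ρ) ∩ ω) (pj τ ∩ ω) = _
        have hB : Bt (insert (toLex (v, s)) ρ) τ = Bt ρ τ := by
          ext u
          rw [mem_Bt, mem_Bt, Finset.mem_insert]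
          constructor
          · rintro ((h | h) | h)
            · have h3 : (u, true) = (v, s) := toLex.injective h
              simp only [Prod.mk.injEq] at h3
              obtain ⟨rfl, rfl⟩ := h3
              exact Or.inr h1
            · exact Or.inl h
            · exact Or.inr h
          · rintro (h | h)
            · exact Or.inl (Or.inr h)
            · exact Or.inr h
        rw [hB, hφ, mul_assoc, hg0]
        congr 2
        refine Finset.sum_congr rfl fun w hw => ?_
        rw [Finset.mem_Icc] at hw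
        exact f_eq hf hSv hSτ hvρ hw.2 (Or.inr hvτ)
      rcases mem_pj.1 hvτ with h1 | h1
      · have h2 : toLex (v, false) ∉ τ := fun h2 => not_both hτ hkτ v h1 h2
        rw [if_neg (by rw [Finset.mem_compl, not_not]; exact Finset.mem_union_right _ h1),
          if_pos (by
            rw [Finset.mem_compl, Finset.mem_union, not_or]
            exact ⟨hnρ false, h2⟩), zero_add]
        exact hval false h1 h2
      · have h2 : toLex (v, true) ∉ τ := fun h2 => not_both hτ hkτ v h2 h1
        rw [if_pos (by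
            rw [Finset.mem_compl, Finset.mem_union, not_or]
            exact ⟨hnρ true, h2⟩),
          if_neg (by rw [Finset.mem_compl, not_not]; exact Finset.mem_union_right _ h1), add_zero]
        exact hval true h1 h2
    · -- both copies are new
      have hnτ : ∀ s : Bool, toLex (v, s) ∉ τ := by
        intro s hs
        apply hvτ
        rw [mem_pj]
        cases s
        · exact Or.inr hs
        · exact Or.inl hs
      have hmem : ∀ s : Bool, toLex (v, s) ∈ (ρ ∪ τ)ᶜ := by
        intro s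
        rw [Finset.mem_compl, Finset.mem_union, not_or]
        exact ⟨hnρ s, hnτ s⟩
      rw [if_pos (hmem true), if_pos (hmem false), hZ _ (hnρ true) (hnτ true),
        hZ _ (hnρ false) (hnτ false)]
      change c (insert v (pj ρ)) * _ * (∑ ω ∈ Finset.Icc (Bt (insert (toLex (v, true)) ρ) τ)
          (insert v (pj ρ) ∪ pj τ), f ω (insert v (pj ρ) ∩ ω) (pj τ ∩ ω)) +
        c (insert v (pj ρ)) * _ * (∑ ω ∈ Finset.Icc (Bt (insert (toLex (v, false)) ρ) τ)
          (insert v (pj ρ) ∪ pj τ), f ω (insert v (pj ρ) ∩ ω) (pj τ ∩ ω)) = _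
      have hBt : Bt (insert (toLex (v, true)) ρ) τ = insert v (Bt ρ τ) := by
        ext u
        rw [Finset.mem_insert, mem_Bt, mem_Bt, Finset.mem_insert]
        constructor
        · rintro ((h | h) | h)
          · have h3 : (u, true) = (v, true) := toLex.injective h
            simp only [Prod.mk.injEq, and_true] at h3
            exact Or.inl h3
          · exact Or.inr (Or.inl h)
          · exact Or.inr (Or.inr h)
        · rintro (rfl | h | h)
          · exact Or.inl (Or.inl rfl)
          · exact Or.inl (Or.inr h)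
          · exact Or.inr h
      have hBf : Bt (insert (toLex (v, false)) ρ) τ = Bt ρ τ := by
        ext u
        rw [mem_Bt, mem_Bt, Finset.mem_insert]
        constructor
        · rintro ((h | h) | h)
          · have h3 : (u, true) = (v, false) := toLex.injective h
            simp at h3
          · exact Or.inl h
          · exact Or.inr h
        · rintro (h | h)
          · exact Or.inl (Or.inr h)
          · exact Or.inr h
      have hvφ : v ∉ pj ρ ∪ pj τ := by
        rw [Finset.mem_union, not_or]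
        exact ⟨hvρ, hvτ⟩
      rw [hBt, hBf, Finset.insert_union]
      obtain ⟨F, hF⟩ : ∃ F : Finset V → ZMod 2,
        F = fun ω => f ω (insert v (pj ρ) ∩ ω) (pj τ ∩ ω) := ⟨_, rfl⟩
      have hF' : ∀ ω, f ω (insert v (pj ρ) ∩ ω) (pj τ ∩ ω) = F ω := fun ω => by rw [hF]
      simp only [hF']
      have hspl : ∑ ω ∈ Finset.Icc (Bt ρ τ) (insert v (pj ρ ∪ pj τ)), F ω =
          ∑ ω ∈ Finset.Icc (insert v (Bt ρ τ)) (insert v (pj ρ ∪ pj τ)), F ω +
            ∑ ω ∈ Finset.Icc (Bt ρ τ) (pj ρ ∪ pj τ), F ω := by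
        rw [← Finset.sum_filter_add_sum_filter_not (Finset.Icc (Bt ρ τ) (insert v (pj ρ ∪ pj τ)))
          (fun ω => v ∈ ω)]
        congr 1
        · refine Finset.sum_congr ?_ fun _ _ => rfl
          ext ω
          simp only [Finset.mem_filter, Finset.mem_Icc, Finset.insert_subset_iff]
          tauto
        · refine Finset.sum_congr ?_ fun _ _ => rfl
          ext ω
          simp only [Finset.mem_filter, Finset.mem_Icc]
          constructor
          · rintro ⟨⟨h1, h2⟩, h3⟩
            refine ⟨h1, fun u hu => ?_⟩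
            rcases Finset.mem_insert.1 (h2 hu) with rfl | h
            · exact absurd hu h3
            · exact h
          · rintro ⟨h1, h2⟩
            exact ⟨⟨h1, h2.trans (Finset.subset_insert _ _)⟩, fun h => hvφ (h2 h)⟩
      have hg : ∑ ω ∈ Finset.Icc (Bt ρ τ) (pj ρ ∪ pj τ), F ω = g0 := by
        rw [hg0]
        refine Finset.sum_congr rfl fun w hw => ?_
        rw [Finset.mem_Icc] at hw
        rw [← hF']
        exact f_eq hf hSv hSτ hvρ hw.2 (Or.inl fun h => hvφ (hw.2 h))
      rw [hspl, hg]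
      have h2 : ∀ a : ZMod 2, a + a = 0 := CharTwo.add_self_eq_zero
      have h3 := h2 (c (insert v (pj ρ)) * c (pj τ) *
        ∑ ω ∈ Finset.Icc (insert v (Bt ρ τ)) (insert v (pj ρ ∪ pj τ)), F ω)
      linear_combination h3
  -- the sum over the vertices
  have e1 : ∑ x ∈ (ρ ∪ τ)ᶜ, Zf j c f (insert x ρ) τ =
      ∑ x : V ×ₗ Bool, if x ∈ (ρ ∪ τ)ᶜ then Zf j c f (insert x ρ) τ else 0 := by
    rw [Finset.sum_ite_mem, Finset.univ_inter]
  rw [e1, ← Equiv.sum_comp (toLex : V × Bool ≃ V ×ₗ Bool), Fintype.sum_prod_type]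
  simp only [Fintype.sum_bool]
  rw [Finset.sum_congr rfl fun v _ => key v, Finset.sum_ite_mem, Finset.univ_inter,
    ← Finset.sum_mul, hc.cyc, zero_mul]

end Pool.Agent.H6.RB
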