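import Pool.Agent.H6.RB.LA

/-!
# Project RB: part DUAL
-/

set_option autoImplicit false

namespace Pool.Agent.H6.RB

open Finset

theorem dual : S_DUAL := by
  intro V _ _ G C i hco
  classical
  unfold Co at hco
  push Not at hco
  obtain ⟨r, hr, hb⟩ := hco
  set P : Finset V → Prop := fun T => Sx G C T ∧ T.card = i + 1 with hP
  let g : (Finset V → ZMod 2) →ₗ[ZMod 2] (Finset V → ZMod 2) :=
    { toFun := fun b T => if P T then ∑ v ∈ T, b (T.erase v) else 0
      map_add' := fun b b' => by
        funext T
        simp only [Pi.add_apply]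
        by_cases h : P T
        · simp only [if_pos h, sum_add_distrib]
        · simp only [if_neg h, add_zero]
      map_smul' := fun x b => by
        funext T
        simp only [Pi.smul_apply, smul_eq_mul, RingHom.id_apply]
        by_cases h : P T
        · simp only [if_pos h, mul_sum]
        · simp only [if_neg h, mul_zero] }
  have hg : ∀ b T, g b T = if P T then ∑ v ∈ T, b (T.erase v) else 0 := fun _ _ => rfl
  obtain ⟨c, hc1, hc2⟩ := la (ZMod 2) (Finset V) (Finset V) g (fun T => if P T then r T else 0) (by
    rintro ⟨b, hb'⟩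
    obtain ⟨T, hT1, hT2, hT3⟩ := hb b
    apply hT3
    have h1 := congrFun hb' T
    rw [hg, if_pos ⟨hT1, hT2⟩] at h1
    rw [h1, if_pos ⟨hT1, hT2⟩])
  refine ⟨r, fun T => if P T then c T else 0, hr, ⟨fun T hT => ?_, fun T => ?_⟩, ?_⟩
  · by_contra h
    exact hT (if_neg h)
  · have h1 := hc1 (Pi.single T 1)
    refine Eq.trans ?_ h1
    simp only [hg]
    have h2 : ∀ S : Finset V, c S * (if P S then ∑ v ∈ S, (Pi.single T 1 : Finset V → ZMod 2) (S.erase v) else 0) =
        ∑ v ∈ S, if S.erase v = T then (if P S then c S else 0) else 0 := by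
      intro S
      by_cases hS : P S
      · simp only [if_pos hS]
        rw [mul_sum]
        refine sum_congr rfl fun v _ => ?_
        rw [Pi.single_apply]
        split_ifs <;> simp
      · simp only [if_neg hS, mul_zero, ite_self, sum_const_zero]
    rw [sum_congr rfl fun S _ => h2 S]
    have h3 : ∑ S : Finset V, ∑ v ∈ S, (if S.erase v = T then (if P S then c S else 0) else 0) =
        ∑ x ∈ ((univ : Finset (Finset V)).sigma fun S => S).filter
          (fun x : (Σ _ : Finset V, V) => x.1.erase x.2 = T), if P x.1 then c x.1 else 0 := by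
      rw [sum_sigma', ← sum_filter]
    rw [h3]
    refine sum_bij (fun v _ => (⟨insert v T, v⟩ : Σ _ : Finset V, V)) ?_ ?_ ?_ ?_
    · intro v hv
      rw [mem_compl] at hv
      simp only [mem_filter, mem_sigma, mem_univ, true_and]
      exact ⟨mem_insert_self _ _, erase_insert hv⟩
    · intro v _ w _ h
      simp only [Sigma.mk.injEq] at h
      exact eq_of_heq h.2
    · rintro ⟨S, v⟩ h
      simp only [mem_filter, mem_sigma, mem_univ, true_and] at h
      refine ⟨v, ?_, ?_⟩
      · rw [mem_compl, ← h.2]
        exact notMem_erase v S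
      · simp only [← h.2, insert_erase h.1]
    · intro v _
      rfl
  · intro h
    apply hc2
    refine Eq.trans (sum_congr rfl fun T _ => ?_) h
    by_cases hT : P T
    · simp only [if_pos hT]
    · simp only [if_neg hT, mul_zero, zero_mul]

end Pool.Agent.H6.RB
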