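import Pool.Agent.H6.RB.Defs

/-!
# Project RB: the value of the obstruction (stub RB-EVAL)
-/

set_option autoImplicit false

noncomputable section

namespace Pool.Agent.H6.RB

open Finset

namespace EvalAux

variable {V : Type} [Fintype V] [LinearOrder V]

/-- the other copy of the point `v` -/
def tg (v : V) (x : V ×ₗ Bool) : V ×ₗ Bool :=
  if (ofLex x).1 = v then toLex (v, !(ofLex x).2) else x

omit [Fintype V] in
theorem tg_mk (v : V) (b : Bool) : tg v (toLex (v, b)) = toLex (v, !b) := if_pos rfl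

omit [Fintype V] in
theorem tg_ne {v w : V} (h : w ≠ v) (b : Bool) : tg v (toLex (w, b)) = toLex (w, b) := if_neg h

omit [Fintype V] in
theorem tg_fst (v : V) (x : V ×ₗ Bool) : (ofLex (tg v x)).1 = (ofLex x).1 := by
  unfold tg
  split_ifs with h
  · exact h.symm
  · rfl

omit [Fintype V] in
theorem tg_tg (v : V) (x : V ×ₗ Bool) : tg v (tg v x) = x := by
  obtain ⟨⟨w, b⟩, rfl⟩ := toLex.surjective x
  by_cases h : w = v
  · subst h
    rw [tg_mk, tg_mk, Bool.not_not]
  · rw [tg_ne h, tg_ne h]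

omit [Fintype V] in
theorem tg_inj (v : V) : Function.Injective (tg v) := fun x y h => by
  rw [← tg_tg v x, h, tg_tg]

/-- exactly one copy of `v` is in `U` -/
def one (U : Finset (V ×ₗ Bool)) (v : V) : Prop :=
  ¬ (toLex (v, false) ∈ U ↔ toLex (v, true) ∈ U)

omit [Fintype V] in
theorem tg_lt {U : Finset (V ×ₗ Bool)} {v : V} (h : one U v) {x y : V ×ₗ Bool} (hx : x ∈ U)
    (hy : y ∈ U) (hxy : x < y) : tg v x < tg v y := by
  rw [Prod.Lex.lt_iff] at hxy ⊢
  rw [tg_fst, tg_fst]
  rcases hxy with h1 | ⟨h1, h2⟩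
  · exact Or.inl h1
  · refine Or.inr ⟨h1, ?_⟩
    by_cases h3 : (ofLex x).1 = v
    · exfalso
      apply h
      have hx2 : (ofLex x).2 = false ∧ (ofLex y).2 = true := by
        revert h2
        cases (ofLex x).2 <;> cases (ofLex y).2 <;> simp
      have e1 : x = toLex (v, false) := by
        rw [← h3, ← hx2.1]
        rfl
      have e2 : y = toLex (v, true) := by
        rw [← h3, h1, ← hx2.2]
        rfl
      rw [← e1, ← e2]
      exact iff_of_true hx hy
    · have h4 : (ofLex y).1 ≠ v := fun h5 => h3 (h1.trans h5)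
      unfold tg
      rw [if_neg h3, if_neg h4]
      exact h2

theorem rank_image {X : Type} [LinearOrder X] (U : Finset X) (g : X → X)
    (hg : ∀ x ∈ U, ∀ y ∈ U, x < y → g x < g y) (x : X) (hx : x ∈ U) :
    ((U.image g).filter (fun w => w < g x)).card = (U.filter (fun w => w < x)).card := by
  have hinj : Set.InjOn g (U : Set X) := by
    intro a ha b hb hab
    rcases lt_trichotomy a b with h | h | h
    · exact absurd hab (hg a ha b hb h).ne
    · exact h
    · exact absurd hab (hg b hb a ha h).ne'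
  have h1 : (U.image g).filter (fun w => w < g x) = (U.filter (fun w => w < x)).image g := by
    ext w
    simp only [mem_filter, mem_image]
    constructor
    · rintro ⟨⟨y, hy, rfl⟩, h⟩
      refine ⟨y, ⟨hy, ?_⟩, rfl⟩
      by_contra hcon
      rcases (not_lt.1 hcon).lt_or_eq with h2 | h2
      · exact absurd h (hg x hx y hy h2).not_gt
      · rw [h2] at h
        exact lt_irrefl _ h
    · rintro ⟨y, ⟨hy, h⟩, rfl⟩
      exact ⟨⟨y, hy, rfl⟩, hg y hy x hx h⟩
  rw [h1, card_image_of_injOn (hinj.mono (coe_subset.2 (filter_subset _ _)))]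

theorem evX_image {X : Type} [LinearOrder X] (U : Finset X) (g : X → X)
    (hg : ∀ x ∈ U, ∀ y ∈ U, x < y → g x < g y) : evX (U.image g) = (evX U).image g := by
  ext w
  unfold evX
  simp only [mem_filter, mem_image]
  constructor
  · rintro ⟨⟨y, hy, rfl⟩, h⟩
    rw [rank_image U g hg y hy] at h
    exact ⟨y, ⟨hy, h⟩, rfl⟩
  · rintro ⟨y, ⟨hy, h⟩, rfl⟩
    refine ⟨⟨y, hy, rfl⟩, ?_⟩
    rwa [rank_image U g hg y hy]

theorem odX_image {X : Type} [LinearOrder X] (U : Finset X) (g : X → X)
    (hg : ∀ x ∈ U, ∀ y ∈ U, x < y → g x < g y) : odX (U.image g) = (odX U).image g := by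
  ext w
  unfold odX
  simp only [mem_filter, mem_image]
  constructor
  · rintro ⟨⟨y, hy, rfl⟩, h⟩
    rw [rank_image U g hg y hy] at h
    exact ⟨y, ⟨hy, h⟩, rfl⟩
  · rintro ⟨y, ⟨hy, h⟩, rfl⟩
    refine ⟨⟨y, hy, rfl⟩, ?_⟩
    rwa [rank_image U g hg y hy]

omit [Fintype V] in
theorem pj_image (v : V) (σ : Finset (V ×ₗ Bool)) : pj (σ.image (tg v)) = pj σ := by
  unfold pj
  rw [image_image]
  refine image_congr fun x _ => ?_
  exact tg_fst v x

omit [Fintype V] in
theorem mem_pj {σ : Finset (V ×ₗ Bool)} {w : V} :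
    w ∈ pj σ ↔ toLex (w, false) ∈ σ ∨ toLex (w, true) ∈ σ := by
  unfold pj
  rw [mem_image]
  constructor
  · rintro ⟨x, hx, rfl⟩
    rcases hb : (ofLex x).2 with _ | _
    · left
      rw [← hb]
      exact hx
    · right
      rw [← hb]
      exact hx
  · rintro (h | h)
    · exact ⟨_, h, rfl⟩
    · exact ⟨_, h, rfl⟩

omit [Fintype V] in
theorem mem_Bt {σ τ : Finset (V ×ₗ Bool)} {w : V} :
    w ∈ Bt σ τ ↔ toLex (w, true) ∈ σ ∨ toLex (w, false) ∈ τ := by
  unfold Bt
  rw [mem_union, mem_pj, mem_pj]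
  simp

omit [Fintype V] in
theorem mem_image_tg {v w : V} (h : w ≠ v) (b : Bool) (σ : Finset (V ×ₗ Bool)) :
    toLex (w, b) ∈ σ.image (tg v) ↔ toLex (w, b) ∈ σ := by
  have h1 : tg v (toLex (w, b)) = toLex (w, b) := tg_ne h b
  constructor
  · intro h2
    obtain ⟨x, hx, h3⟩ := mem_image.1 h2
    have h4 : x = toLex (w, b) := tg_inj v (h3.trans h1.symm)
    rwa [← h4]
  · intro h2
    exact mem_image.2 ⟨_, h2, h1⟩

omit [Fintype V] in
theorem mem_image_tg' {v : V} (b : Bool) (σ : Finset (V ×ₗ Bool)) :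
    toLex (v, b) ∈ σ.image (tg v) ↔ toLex (v, !b) ∈ σ := by
  have h1 : tg v (toLex (v, !b)) = toLex (v, b) := by
    rw [tg_mk, Bool.not_not]
  constructor
  · intro h2
    obtain ⟨x, hx, h3⟩ := mem_image.1 h2
    have h4 : x = toLex (v, !b) := tg_inj v (h3.trans h1.symm)
    rwa [← h4]
  · intro h2
    exact mem_image.2 ⟨_, h2, h1⟩

/-- one term -/
def Tm (j : ℕ) (c : Finset V → ZMod 2) (f : Finset V → Finset V → Finset V → ZMod 2)
    (ω : Finset V) (σ τ : Finset (V ×ₗ Bool)) : ZMod 2 :=
  if (Disjoint σ τ ∧ σ.card = j + 1 ∧ τ.card = j + 1) ∧ Bt σ τ ⊆ ω ∧ ω ⊆ pj σ ∪ pj τ then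
    c (pj σ) * c (pj τ) * f ω (pj σ ∩ ω) (pj τ ∩ ω) else 0

theorem Zf_eq (j : ℕ) (c : Finset V → ZMod 2) (f : Finset V → Finset V → Finset V → ZMod 2)
    (σ τ : Finset (V ×ₗ Bool)) : Zf j c f σ τ = ∑ ω, Tm j c f ω σ τ := by
  unfold Zf Tm
  by_cases h : Disjoint σ τ ∧ σ.card = j + 1 ∧ τ.card = j + 1
  · rw [if_pos h, mul_sum, ← sum_filter_add_sum_filter_not univ (fun ω => Bt σ τ ⊆ ω ∧ ω ⊆ pj σ ∪ pj τ)]
    rw [sum_eq_zero (s := univ.filter fun ω => ¬ (Bt σ τ ⊆ ω ∧ ω ⊆ pj σ ∪ pj τ)), add_zero]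
    · refine sum_congr ?_ ?_
      · ext ω
        simp [mem_Icc]
      · intro ω hω
        rw [mem_filter] at hω
        rw [if_pos ⟨h, hω.2⟩]
    · intro ω hω
      rw [mem_filter] at hω
      rw [if_neg fun h1 => hω.2 h1.2]
  · rw [if_neg h, sum_eq_zero]
    intro ω _
    rw [if_neg fun h1 => h h1.1]

omit [Fintype V] in
theorem Tm_image {j : ℕ} {c : Finset V → ZMod 2} {f : Finset V → Finset V → Finset V → ZMod 2}
    {ω : Finset V} {v : V} (hv : v ∈ ω) (σ τ : Finset (V ×ₗ Bool)) :
    Tm j c f ω (σ.image (tg v)) (τ.image (tg v)) = Tm j c f ω σ τ := by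
  unfold Tm
  rw [pj_image, pj_image, card_image_of_injective _ (tg_inj v), card_image_of_injective _ (tg_inj v)]
  have h0 : Disjoint (σ.image (tg v)) (τ.image (tg v)) ↔ Disjoint σ τ := disjoint_image (tg_inj v)
  have h1 : Bt (σ.image (tg v)) (τ.image (tg v)) ⊆ ω ↔ Bt σ τ ⊆ ω := by
    constructor
    · intro h w hw
      by_cases h2 : w = v
      · rw [h2]
        exact hv
      · apply h
        rw [mem_Bt] at hw ⊢
        rwa [mem_image_tg h2, mem_image_tg h2]
    · intro h w hw
      by_cases h2 : w = v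
      · rw [h2]
        exact hv
      · apply h
        rw [mem_Bt] at hw ⊢
        rwa [mem_image_tg h2, mem_image_tg h2] at hw
  simp only [h0, h1]

theorem ev_odd {X : Type} [LinearOrder X] (U : Finset X) : evX U ∪ odX U = U := by
  unfold evX odX
  exact filter_union_filter_not_eq _ _

omit [Fintype V] in
theorem pj_union (σ τ : Finset (V ×ₗ Bool)) : pj σ ∪ pj τ = pj (σ ∪ τ) := by
  unfold pj
  rw [image_union]

/-- both copies of the points of `ω` -/
def dbl (ω : Finset V) : Finset (V ×ₗ Bool) :=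
  univ.filter fun x => (ofLex x).1 ∈ ω

theorem mem_dbl {ω : Finset V} {x : V ×ₗ Bool} : x ∈ dbl ω ↔ (ofLex x).1 ∈ ω := by
  unfold dbl
  simp

def cp (b : Bool) (ω : Finset V) : Finset (V ×ₗ Bool) := ω.image fun v => toLex (v, b)

omit [Fintype V] in
theorem card_cp (b : Bool) (ω : Finset V) : (cp b ω).card = ω.card := by
  unfold cp
  refine card_image_of_injective _ fun x y h => ?_
  have : (x, b) = (y, b) := toLex.injective h
  exact (Prod.mk.inj this).1

omit [Fintype V] in
theorem mem_cp {b : Bool} {ω : Finset V} {x : V ×ₗ Bool} :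
    x ∈ cp b ω ↔ (ofLex x).1 ∈ ω ∧ (ofLex x).2 = b := by
  unfold cp
  rw [mem_image]
  constructor
  · rintro ⟨v, hv, rfl⟩
    exact ⟨hv, rfl⟩
  · rintro ⟨h1, rfl⟩
    exact ⟨_, h1, rfl⟩

theorem dbl_eq (ω : Finset V) : dbl ω = cp false ω ∪ cp true ω := by
  ext x
  rw [mem_union, mem_dbl, mem_cp, mem_cp]
  rcases (ofLex x).2 <;> simp

omit [Fintype V] in
theorem disj_cp (ω ω' : Finset V) : Disjoint (cp false ω) (cp true ω') := by
  rw [disjoint_left]
  intro x h1 h2
  rw [mem_cp] at h1 h2
  rw [h1.2] at h2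
  exact absurd h2.2 (by simp)

theorem card_dbl (ω : Finset V) : (dbl ω).card = 2 * ω.card := by
  rw [dbl_eq, card_union_of_disjoint (disj_cp ω ω), card_cp, card_cp]
  ring

theorem rank_dbl (ω : Finset V) (v : V) (b : Bool) (hv : v ∈ ω) :
    ((dbl ω).filter fun w => w < toLex (v, b)).card =
      2 * (ω.filter fun w => w < v).card + if b = true then 1 else 0 := by
  have h1 : ((dbl ω).filter fun w => w < toLex (v, b)) =
      dbl (ω.filter fun w => w < v) ∪ if b = true then {toLex (v, false)} else ∅ := by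
    ext x
    rw [mem_filter, mem_dbl, mem_union, mem_dbl, mem_filter, Prod.Lex.lt_iff]
    change (_ ∧ ((ofLex x).1 < v ∨ (ofLex x).1 = v ∧ (ofLex x).2 < b)) ↔ _
    cases b
    · simp
    · constructor
      · rintro ⟨h1, h2 | ⟨h2, h3⟩⟩
        · exact Or.inl ⟨h1, h2⟩
        · right
          have h4 : (ofLex x).2 = false := by
            revert h3
            cases (ofLex x).2 <;> simp
          rw [if_pos rfl, mem_singleton, ← h2, ← h4]
          rfl
      · rintro (⟨h1, h2⟩ | h1)
        · exact ⟨h1, Or.inl h2⟩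
        · rw [if_pos rfl, mem_singleton] at h1
          subst h1
          exact ⟨hv, Or.inr ⟨rfl, by simp⟩⟩
  rw [h1]
  cases b
  · simp [card_dbl]
  · rw [if_pos rfl, if_pos rfl, card_union_of_disjoint, card_dbl, card_singleton]
    rw [disjoint_singleton_right, mem_dbl, mem_filter]
    intro h
    exact lt_irrefl _ h.2

theorem evX_dbl (ω : Finset V) : evX (dbl ω) = cp false ω := by
  ext x
  unfold evX
  rw [mem_filter, mem_cp, mem_dbl]
  refine and_congr_right fun h => ?_
  have h1 : x = toLex ((ofLex x).1, (ofLex x).2) := rfl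
  conv_lhs => rw [h1, rank_dbl ω _ _ h]
  cases (ofLex x).2
  · simp
  · simp [parity_simps]

theorem odX_dbl (ω : Finset V) : odX (dbl ω) = cp true ω := by
  ext x
  unfold odX
  rw [mem_filter, mem_cp, mem_dbl]
  refine and_congr_right fun h => ?_
  have h1 : x = toLex ((ofLex x).1, (ofLex x).2) := rfl
  conv_lhs => rw [h1, rank_dbl ω _ _ h]
  cases (ofLex x).2
  · simp
  · simp [parity_simps]

omit [Fintype V] in
theorem pj_cp (b : Bool) (ω : Finset V) : pj (cp b ω) = ω := by
  unfold pj cp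
  rw [image_image]
  exact image_id

theorem Tm_dbl {j : ℕ} {c : Finset V → ZMod 2} {f : Finset V → Finset V → Finset V → ZMod 2}
    {ω : Finset V} (hω : ω.card = j + 1) :
    Tm j c f ω (evX (dbl ω)) (odX (dbl ω)) = c ω * c ω * f ω ω ω := by
  unfold Tm
  rw [evX_dbl, odX_dbl, pj_cp, pj_cp, union_self, inter_self, if_pos]
  refine ⟨⟨disj_cp ω ω, by rw [card_cp, hω], by rw [card_cp, hω]⟩, ?_, Subset.refl _⟩
  intro w hw
  rw [mem_Bt, mem_cp, mem_cp] at hw
  rcases hw with h | h
  · exact h.1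
  · exact h.1

/-- no point of `ω` has exactly one copy in `U`: the term is zero if `U` does not consist of all copies -/
theorem Tm_none {G : SimpleGraph V} {C : Set V} {j : ℕ} {c : Finset V → ZMod 2}
    {f : Finset V → Finset V → Finset V → ZMod 2} (hc : Cy G C j c) (hf : FF G C j f)
    {ω : Finset V} {U : Finset (V ×ₗ Bool)} (hU : U.card = 2 * (j + 1)) (h : ∀ v ∈ ω, ¬ one U v)
    (hne : Tm j c f ω (evX U) (odX U) ≠ 0) : ω.card = j + 1 ∧ U = dbl ω := by
  unfold Tm at hne
  by_cases h1 : (Disjoint (evX U) (odX U) ∧ (evX U).card = j + 1 ∧ (odX U).card = j + 1) ∧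
      Bt (evX U) (odX U) ⊆ ω ∧ ω ⊆ pj (evX U) ∪ pj (odX U)
  · rw [if_pos h1] at hne
    have h2 := h1.2.2
    rw [pj_union, ev_odd] at h2
    have h3 : dbl ω ⊆ U := by
      intro x hx
      rw [mem_dbl] at hx
      have h4 := h _ hx
      unfold one at h4
      rw [not_not] at h4
      have h5 := mem_pj.1 (h2 hx)
      have h6 : toLex ((ofLex x).1, false) ∈ U ∧ toLex ((ofLex x).1, true) ∈ U := by tauto
      have h7 : x = toLex ((ofLex x).1, (ofLex x).2) := rfl
      rw [h7]
      cases (ofLex x).2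
      · exact h6.1
      · exact h6.2
    have h4 := card_le_card h3
    rw [card_dbl, hU] at h4
    have h5 : ¬ ω.card ≤ j := by
      intro h6
      apply hne
      have h7 := (hc.supp _ (left_ne_zero_of_mul (left_ne_zero_of_mul hne))).1
      have h8 := (hc.supp _ (right_ne_zero_of_mul (left_ne_zero_of_mul hne))).1
      rw [hf.zero ω _ _ ?_ ?_ ?_ h6, mul_zero]
      · exact ⟨h7.1.subset (coe_subset.2 inter_subset_left),
          (Set.Subset.trans (coe_subset.2 inter_subset_left) h7.2)⟩
      · exact ⟨h8.1.subset (coe_subset.2 inter_subset_left),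
          (Set.Subset.trans (coe_subset.2 inter_subset_left) h8.2)⟩
      · rw [← union_inter_distrib_right]
        exact inter_eq_right.2 h1.2.2
    refine ⟨by omega, ?_⟩
    symm
    apply eq_of_subset_of_card_le h3
    rw [card_dbl, hU]
    omega
  · rw [if_neg h1] at hne
    exact absurd rfl hne

theorem key {G : SimpleGraph V} {C : Set V} {j : ℕ} {c : Finset V → ZMod 2}
    {f : Finset V → Finset V → Finset V → ZMod 2} (hc : Cy G C j c) (hf : FF G C j f)
    (ω : Finset V) :
    ∑ U ∈ powersetCard (2 * (j + 1)) (univ : Finset (V ×ₗ Bool)), Tm j c f ω (evX U) (odX U) =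
      c ω * c ω * f ω ω ω := by
  classical
  let O : Finset (V ×ₗ Bool) → Finset V := fun U => ω.filter fun v => one U v
  rw [← sum_filter_add_sum_filter_not _ (fun U => (O U).Nonempty)]
  have hO : ∀ (U : Finset (V ×ₗ Bool)) (v : V), one U v → O (U.image (tg v)) = O U := by
    intro U v _
    refine filter_congr fun w _ => ?_
    unfold one
    by_cases h : w = v
    · subst h
      rw [mem_image_tg', mem_image_tg']
      simp only [Bool.not_false, Bool.not_true]
      tauto
    · rw [mem_image_tg h, mem_image_tg h]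
  have h1 : ∑ U ∈ (powersetCard (2 * (j + 1)) (univ : Finset (V ×ₗ Bool))).filter
      (fun U => (O U).Nonempty), Tm j c f ω (evX U) (odX U) = 0 := by
    refine sum_involution (fun U hU => U.image (tg ((O U).min' (mem_filter.1 hU).2))) ?_ ?_ ?_ ?_
    · intro U hU
      have hv := mem_filter.1 ((O U).min'_mem (mem_filter.1 hU).2)
      set v := (O U).min' (mem_filter.1 hU).2
      have hlt : ∀ x ∈ U, ∀ y ∈ U, x < y → tg v x < tg v y := fun x hx y hy => tg_lt hv.2 hx hy
      rw [evX_image U _ hlt, odX_image U _ hlt, Tm_image hv.1]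
      exact CharTwo.add_self_eq_zero _
    · intro U hU _
      have hv := mem_filter.1 ((O U).min'_mem (mem_filter.1 hU).2)
      set v := (O U).min' (mem_filter.1 hU).2
      intro h
      apply hv.2
      have h2 := mem_image_tg' (v := v) false U
      rw [h] at h2
      exact h2
    · intro U hU
      have hv := mem_filter.1 ((O U).min'_mem (mem_filter.1 hU).2)
      rw [mem_filter, mem_powersetCard] at hU ⊢
      refine ⟨⟨subset_univ _, ?_⟩, ?_⟩
      · rw [card_image_of_injective _ (tg_inj _)]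
        exact hU.1.2
      · rw [hO U _ hv.2]
        exact hU.2
    · intro U hU
      have hv := mem_filter.1 ((O U).min'_mem (mem_filter.1 hU).2)
      have h3 := hO U _ hv.2
      have h4 : ∀ (W : Finset V) (hW : W.Nonempty), W = O U → W.min' hW =
          (O U).min' (mem_filter.1 hU).2 := by
        rintro W hW rfl
        rfl
      show (U.image (tg _)).image (tg ((O (U.image (tg _))).min' _)) = U
      rw [h4 _ _ h3, image_image]
      convert image_id (s := U)
      funext x
      exact tg_tg _ x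
  rw [h1, zero_add]
  by_cases hω : ω.card = j + 1
  · rw [sum_eq_single (dbl ω)]
    · exact Tm_dbl hω
    · intro U hU hne
      rw [mem_filter, mem_powersetCard] at hU
      by_contra h2
      apply hne
      refine (Tm_none hc hf hU.1.2 ?_ h2).2
      intro v hv h3
      exact hU.2 ⟨v, mem_filter.2 ⟨hv, h3⟩⟩
    · intro h2
      exfalso
      apply h2
      rw [mem_filter, mem_powersetCard]
      refine ⟨⟨subset_univ _, by rw [card_dbl, hω]⟩, ?_⟩
      rintro ⟨v, hv⟩
      rw [mem_filter] at hv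
      apply hv.2
      rw [mem_dbl, mem_dbl]
      exact Iff.rfl
  · have h2 : c ω = 0 := by
      by_contra h2
      exact hω (hc.supp ω h2).2
    rw [h2, zero_mul, zero_mul]
    refine sum_eq_zero fun U hU => ?_
    rw [mem_filter, mem_powersetCard] at hU
    by_contra h3
    apply hω
    refine (Tm_none hc hf hU.1.2 ?_ h3).1
    intro v hv h4
    exact hU.2 ⟨v, mem_filter.2 ⟨hv, h4⟩⟩

end EvalAux

open EvalAux in
/-- **RB-EVAL**: the value of the obstruction -/
theorem eval : S_EVAL := by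
  intro V _ _ G C j c f hc hf
  simp only [Zf_eq]
  rw [sum_comm]
  exact sum_congr rfl fun ω _ => key hc hf ω

end Pool.Agent.H6.RB
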