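import Pool.Agent.H6.RB.Defs

set_option autoImplicit false

/-! # Project RB: `S_EXT` -/

noncomputable section

namespace Pool.Agent.H6.RB

open Finset Pool.Agent.W555.KS Pool.Agent.R782.Bal Pool.Agent.Y131.KS

namespace ExtAux

variable {V : Type} [Fintype V] [LinearOrder V]

lemma z2 (x : ZMod 2) : x + x = 0 := CharTwo.add_self_eq_zero x

omit [Fintype V] in
lemma facet (g : Finset V → ZMod 2) (T : Finset V) (h : ∀ u, u ⊆ T → u.card + 1 < T.card → g u = 0) :
    ∑ u ∈ T.ssubsets, g u = ∑ v ∈ T, g (T.erase v) := by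
  rw [← Finset.sum_image (f := g) (g := T.erase) (s := T) (Finset.erase_injOn T)]
  symm
  refine Finset.sum_subset ?_ ?_
  · intro u hu
    obtain ⟨v, hv, rfl⟩ := Finset.mem_image.1 hu
    rw [Finset.mem_ssubsets]
    exact Finset.erase_ssubset hv
  · intro u hu hn
    rw [Finset.mem_ssubsets] at hu
    refine h u hu.1 ?_
    have h1 := Finset.card_lt_card hu
    by_contra h2
    apply hn
    have h3 : (T \ u).card = 1 := by
      rw [Finset.card_sdiff_of_subset hu.1]; omega
    obtain ⟨v, hv⟩ := Finset.card_eq_one.1 h3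
    have hvT : v ∈ T ∧ v ∉ u := by
      rw [← Finset.mem_sdiff, hv]; exact Finset.mem_singleton_self v
    refine Finset.mem_image.2 ⟨v, hvT.1, ?_⟩
    ext x
    rw [Finset.mem_erase]
    constructor
    · rintro ⟨hx1, hx2⟩
      by_contra hx3
      have : x ∈ T \ u := Finset.mem_sdiff.2 ⟨hx2, hx3⟩
      rw [hv, Finset.mem_singleton] at this
      exact hx1 this
    · intro hx
      exact ⟨fun hxv => hvT.2 (hxv ▸ hx), hu.1 hx⟩

omit [Fintype V] in
lemma pow_split (g : Finset V → ZMod 2) (T : Finset V) :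
    ∑ u ∈ T.powerset, g u = ∑ u ∈ T.ssubsets, g u + g T := by
  unfold Finset.ssubsets
  rw [Finset.sum_erase_add _ _ (Finset.mem_powerset_self T)]

/-- zeta squared -/
lemma zz (hZ : S_ZETA) (F : Finset V → ZMod 2) (T : Finset V) :
    ∑ u ∈ T.ssubsets, ∑ t ∈ u.ssubsets, F t = 0 := by
  have h1 := hZ V F ∅ T (Finset.empty_subset T)
  have e1 : Finset.Icc ∅ T = T.powerset := by
    ext u; simp
  have e2 : Finset.Icc (T \ ∅) T = {T} := by
    rw [Finset.sdiff_empty, Finset.Icc_self]
  rw [e1, e2, Finset.sum_singleton] at h1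
  have h2 : ∀ u : Finset V, ∑ t ∈ u.powerset, F t = ∑ t ∈ u.ssubsets, F t + F u := fun u =>
    pow_split F u
  simp only [h2] at h1
  rw [Finset.sum_add_distrib, h2 T, pow_split (fun u => ∑ t ∈ u.ssubsets, F t) T] at h1
  have h3 := z2 (∑ t ∈ T.ssubsets, F t)
  calc ∑ u ∈ T.ssubsets, ∑ t ∈ u.ssubsets, F t
      = (∑ u ∈ T.ssubsets, ∑ t ∈ u.ssubsets, F t + ∑ t ∈ T.ssubsets, F t +
          (∑ t ∈ T.ssubsets, F t + F T)) - F T - (∑ t ∈ T.ssubsets, F t + ∑ t ∈ T.ssubsets, F t) := by
        ring
    _ = 0 := by rw [h1, h3]; ring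

end ExtAux

open ExtAux in
theorem ext : S_ZETA → S_EXT := by
  intro hZ V _ _ G C j r hr hCo
  have key : ∀ n, j + 1 ≤ n → ∃ F : Finset V → ZMod 2, (∀ ω, ω.card ≤ j → F ω = 0) ∧
      (∀ ω, Sx G C ω → ω.card = j + 1 → F ω = r ω) ∧
      ∀ ω, Sx G C ω → ω.card ≤ n + 1 → ∑ ω₀ ∈ ω.ssubsets, F ω₀ = 0 := by
    intro n hn
    induction n, hn using Nat.le_induction with
    | base =>
      refine ⟨fun ω => if ω.card = j + 1 then r ω else 0, fun ω hω => if_neg (by omega),
        fun ω _ hω => if_pos hω, fun ω hω hc => ?_⟩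
      rw [facet _ _ fun u _ hu2 => if_neg (by omega)]
      by_cases h2 : ω.card = j + 2
      · rw [← hr ω hω h2]
        refine Finset.sum_congr rfl fun v hv => if_pos ?_
        rw [Finset.card_erase_of_mem hv]; omega
      · refine Finset.sum_eq_zero fun v hv => if_neg ?_
        rw [Finset.card_erase_of_mem hv]; omega
    | succ n hn ih =>
      obtain ⟨F, h1, h2, h3⟩ := ih
      obtain ⟨b, hb⟩ := hCo (n + 1) (by omega) (fun w => ∑ t ∈ w.ssubsets, F t) (by
        intro T hT hTc
        rw [← facet (fun w => ∑ t ∈ w.ssubsets, F t) T fun u hu hc => h3 u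
          ⟨hT.1.subset (by exact_mod_cast hu),
            (by exact_mod_cast hu : ((u : Finset V) : Set V) ⊆ T).trans hT.2⟩ (by omega)]
        exact zz hZ F T)
      refine ⟨fun w => F w + if w.card = n + 1 then b w else 0, fun w hw => ?_, fun w hw hc => ?_,
        fun w hw hc => ?_⟩
      · simp only []
        rw [h1 w hw, if_neg (by omega), add_zero]
      · simp only []
        rw [h2 w hw hc, if_neg (by omega), add_zero]
      · rw [Finset.sum_add_distrib]
        rw [facet (fun w => if w.card = n + 1 then b w else 0) w fun u _ hu2 => if_neg (by omega)]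
        by_cases h4 : w.card = n + 2
        · have h5 : ∑ v ∈ w, (if (w.erase v).card = n + 1 then b (w.erase v) else 0) =
              ∑ v ∈ w, b (w.erase v) := by
            refine Finset.sum_congr rfl fun v hv => if_pos ?_
            rw [Finset.card_erase_of_mem hv]; omega
          rw [h5, hb w hw h4]
          exact ExtAux.z2 _
        · have h5 : ∑ v ∈ w, (if (w.erase v).card = n + 1 then b (w.erase v) else 0) = 0 := by
            refine Finset.sum_eq_zero fun v hv => if_neg ?_
            rw [Finset.card_erase_of_mem hv]; omega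
          rw [h5, add_zero]
          exact h3 w hw (by omega)
  obtain ⟨F, h1, h2, h3⟩ := key (max (j + 1) (Fintype.card V)) (le_max_left _ _)
  refine ⟨F, h1, h2, fun ω hω => h3 ω hω ?_⟩
  have := Finset.card_le_univ ω
  have := le_max_right (j + 1) (Fintype.card V)
  omega

end Pool.Agent.H6.RB
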