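import Pool.Agent.H6.RB.Defs

/-!
# RB-FF (helper1): existence of the coefficients
-/

set_option autoImplicit false
set_option linter.unusedSectionVars false

noncomputable section

namespace Pool.Agent.H6.RB

open Finset Pool.Agent.W555.KS Pool.Agent.R782.Bal Pool.Agent.H6.RA Pool.Agent.W907.SG Pool.Agent.Y131.KS

namespace FF1

variable {V : Type} [Fintype V] [LinearOrder V]

theorem ex_non (G : SimpleGraph V) (ω : Finset V) (h : ¬ G.IsClique (ω : Set V)) :
    ∃ u, u ∈ ω ∧ ∃ v ∈ ω, u ≠ v ∧ ¬ G.Adj u v := by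
  by_contra hn
  push Not at hn
  exact h (fun u hu v hv huv => hn u hu v hv huv)

open Classical in
/-- the coefficients -/
def ff (G : SimpleGraph V) (F : Finset V → ZMod 2) (ω S T : Finset V) : ZMod 2 :=
  if h : G.IsClique (ω : Set V) then F ω
  else if (ex_non G ω h).choose ∈ S then
    ∑ x ∈ ω.ssubsets.attach, ff G F x.1 (S ∩ x.1) (T ∩ x.1) else 0
termination_by ω.card
decreasing_by exact Finset.card_lt_card (Finset.mem_ssubsets.1 x.2)

/-- the lower sum -/
def hh (G : SimpleGraph V) (F : Finset V → ZMod 2) (ω S T : Finset V) : ZMod 2 :=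
  ∑ x ∈ ω.ssubsets, ff G F x (S ∩ x) (T ∩ x)

theorem ff_cl (G : SimpleGraph V) (F : Finset V → ZMod 2) (ω S T : Finset V)
    (h : G.IsClique (ω : Set V)) : ff G F ω S T = F ω := by
  rw [ff, dif_pos h]

theorem ff_in (G : SimpleGraph V) (F : Finset V → ZMod 2) (ω S T : Finset V)
    (h : ¬ G.IsClique (ω : Set V)) (hu : (ex_non G ω h).choose ∈ S) :
    ff G F ω S T = hh G F ω S T := by
  rw [ff, dif_neg h, if_pos hu, hh]
  exact Finset.sum_attach ω.ssubsets (fun x => ff G F x (S ∩ x) (T ∩ x))

theorem ff_out (G : SimpleGraph V) (F : Finset V → ZMod 2) (ω S T : Finset V)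
    (h : ¬ G.IsClique (ω : Set V)) (hu : (ex_non G ω h).choose ∉ S) :
    ff G F ω S T = 0 := by
  rw [ff, dif_neg h, if_neg hu]

/-- the distinguished vertex is in exactly one of the two simplices -/
theorem one_of (G : SimpleGraph V) (C : Set V) (ω S T : Finset V) (hS : Sx G C S) (hT : Sx G C T)
    (hU : S ∪ T = ω) (h : ¬ G.IsClique (ω : Set V)) :
    ((ex_non G ω h).choose ∈ S ∧ (ex_non G ω h).choose ∉ T) ∨
      ((ex_non G ω h).choose ∉ S ∧ (ex_non G ω h).choose ∈ T) := by
  obtain ⟨hu, v, hv, huv, hadj⟩ := (ex_non G ω h).choose_spec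
  set u := (ex_non G ω h).choose with hudef
  have hnot : ¬ (u ∈ S ∧ u ∈ T) := by
    rintro ⟨h1, h2⟩
    rw [← hU, Finset.mem_union] at hv
    rcases hv with hv | hv
    · exact hadj (hS.1 (Finset.mem_coe.2 h1) (Finset.mem_coe.2 hv) huv)
    · exact hadj (hT.1 (Finset.mem_coe.2 h2) (Finset.mem_coe.2 hv) huv)
  rw [← hU, Finset.mem_union] at hu
  tauto

theorem sx_inter {G : SimpleGraph V} {C : Set V} {S : Finset V} (hS : Sx G C S) (x : Finset V) :
    Sx G C (S ∩ x) := by
  refine ⟨hS.1.subset ?_, fun v hv => hS.2 ?_⟩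
  · exact Finset.coe_subset.2 Finset.inter_subset_left
  · exact Finset.mem_coe.2 (Finset.mem_inter.1 (Finset.mem_coe.1 hv)).1

theorem un_inter {S T ω : Finset V} (hU : S ∪ T = ω) {x : Finset V} (hx : x ⊆ ω) :
    (S ∩ x) ∪ (T ∩ x) = x := by
  rw [← Finset.union_inter_distrib_right, hU]
  exact Finset.inter_eq_right.2 hx

theorem loc (G : SimpleGraph V) (C : Set V) (F : Finset V → ZMod 2) : ∀ (n : ℕ) (ω S T : Finset V)
    (v : V), ω.card = n → Sx G C S → Sx G C T → S ∪ T = ω → v ∈ S → v ∈ T →
    ff G F ω (S.erase v) T = ff G F ω S T := by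
  intro n
  induction n using Nat.strong_induction_on with
  | _ n ih =>
    intro ω S T v hn hS hT hU hvS hvT
    by_cases hc : G.IsClique (ω : Set V)
    · rw [ff_cl _ _ _ _ _ hc, ff_cl _ _ _ _ _ hc]
    · have hh' : hh G F ω (S.erase v) T = hh G F ω S T := by
        unfold hh
        refine Finset.sum_congr rfl fun x hx => ?_
        have hx' := Finset.mem_ssubsets.1 hx
        by_cases hvx : v ∈ x
        · have h1 : S.erase v ∩ x = (S ∩ x).erase v := by
            ext y
            simp only [Finset.mem_inter, Finset.mem_erase]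
            tauto
          rw [h1]
          exact ih x.card (hn ▸ Finset.card_lt_card hx') x (S ∩ x) (T ∩ x) v rfl (sx_inter hS x)
            (sx_inter hT x) (un_inter hU hx'.1) (Finset.mem_inter.2 ⟨hvS, hvx⟩)
            (Finset.mem_inter.2 ⟨hvT, hvx⟩)
        · have h1 : S.erase v ∩ x = S ∩ x := by
            ext y
            simp only [Finset.mem_inter, Finset.mem_erase]
            constructor
            · rintro ⟨⟨_, h2⟩, h3⟩
              exact ⟨h2, h3⟩
            · rintro ⟨h2, h3⟩
              exact ⟨⟨fun h4 => hvx (h4 ▸ h3), h2⟩, h3⟩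
          rw [h1]
      rcases one_of G C ω S T hS hT hU hc with ⟨h1, h2⟩ | ⟨h1, h2⟩
      · have h3 : (ex_non G ω hc).choose ∈ S.erase v :=
          Finset.mem_erase.2 ⟨fun h4 => h2 (h4 ▸ hvT), h1⟩
        rw [ff_in _ _ _ _ _ hc h1, ff_in _ _ _ _ _ hc h3, hh']
      · have h3 : (ex_non G ω hc).choose ∉ S.erase v := fun h4 => h1 (Finset.mem_erase.1 h4).2
        rw [ff_out _ _ _ _ _ hc h1, ff_out _ _ _ _ _ hc h3]

theorem zero (G : SimpleGraph V) (F : Finset V → ZMod 2) (j : ℕ)
    (hF : ∀ ω : Finset V, ω.card ≤ j → F ω = 0) : ∀ (n : ℕ) (ω S T : Finset V), ω.card = n →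
    n ≤ j → ff G F ω S T = 0 := by
  intro n
  induction n using Nat.strong_induction_on with
  | _ n ih =>
    intro ω S T hn hj
    by_cases hc : G.IsClique (ω : Set V)
    · rw [ff_cl _ _ _ _ _ hc]
      exact hF ω (by omega)
    · by_cases hu : (ex_non G ω hc).choose ∈ S
      · rw [ff_in _ _ _ _ _ hc hu]
        unfold hh
        refine Finset.sum_eq_zero fun x hx => ?_
        have hx' := Finset.card_lt_card (Finset.mem_ssubsets.1 hx)
        exact ih x.card (by omega) x _ _ rfl (by omega)
      · exact ff_out _ _ _ _ _ hc hu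

/-- the number of sets strictly between is even -/
theorem between (x ω : Finset V) (hx : x ⊂ ω) :
    (((ω.ssubsets.filter (fun y => x ⊂ y)).card : ℕ) : ZMod 2) = 0 := by
  have h1 : ω.ssubsets.filter (fun y => x ⊂ y) = Finset.Ioo x ω := by
    ext y
    simp only [Finset.mem_filter, Finset.mem_ssubsets, Finset.mem_Ioo]
    tauto
  rw [h1, Finset.card_Ioo_finset hx.1]
  have h2 := Finset.card_lt_card hx
  obtain ⟨k, hk⟩ : ∃ k, ω.card - x.card = k + 1 := ⟨ω.card - x.card - 1, by omega⟩
  rw [hk, ZMod.natCast_eq_zero_iff]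
  have h3 : 2 ≤ 2 ^ (k + 1) := by
    rw [pow_succ]
    have : 1 ≤ 2 ^ k := Nat.one_le_two_pow
    omega
  exact Nat.dvd_sub (dvd_pow_self 2 (by omega)) (dvd_refl 2)

theorem zeta (G : SimpleGraph V) (C : Set V) (F : Finset V → ZMod 2)
    (hF : ∀ ω, Sx G C ω → ∑ ω₀ ∈ ω.ssubsets, F ω₀ = 0) : ∀ (n : ℕ) (ω S T : Finset V),
    ω.card = n → Sx G C S → Sx G C T → S ∪ T = ω →
    ff G F ω S T + ff G F ω T S = hh G F ω T S := by
  intro n
  induction n using Nat.strong_induction_on with
  | _ n ih =>
    intro ω S T hn hS hT hU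
    have hTU : T ∪ S = ω := by rw [Finset.union_comm]; exact hU
    by_cases hc : G.IsClique (ω : Set V)
    · rw [ff_cl _ _ _ _ _ hc, ff_cl _ _ _ _ _ hc, CharTwo.add_self_eq_zero]
      have hω : Sx G C ω := by
        refine ⟨hc, fun v hv => ?_⟩
        rw [← hU] at hv
        rcases Finset.mem_union.1 (Finset.mem_coe.1 hv) with h | h
        · exact hS.2 (Finset.mem_coe.2 h)
        · exact hT.2 (Finset.mem_coe.2 h)
      rw [← hF ω hω]
      unfold hh
      refine Finset.sum_congr rfl fun x hx => ?_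
      rw [ff_cl]
      exact hc.subset (Finset.coe_subset.2 (Finset.mem_ssubsets.1 hx).1)
    · -- symmetry of the lower sum
      have hsym : hh G F ω S T + hh G F ω T S = 0 := by
        have h1 : hh G F ω S T + hh G F ω T S = ∑ x ∈ ω.ssubsets, hh G F x (T ∩ x) (S ∩ x) := by
          unfold hh
          rw [← Finset.sum_add_distrib]
          refine Finset.sum_congr rfl fun x hx => ?_
          have hx' := Finset.mem_ssubsets.1 hx
          exact ih x.card (hn ▸ Finset.card_lt_card hx') x (S ∩ x) (T ∩ x) rfl (sx_inter hS x)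
            (sx_inter hT x) (un_inter hU hx'.1)
        have h2 : ∀ x ∈ ω.ssubsets, hh G F x (T ∩ x) (S ∩ x) =
            ∑ y ∈ ω.ssubsets, if y ⊂ x then ff G F y (T ∩ y) (S ∩ y) else 0 := by
          intro x hx
          have hx' := Finset.mem_ssubsets.1 hx
          rw [← Finset.sum_filter]
          have h3 : ω.ssubsets.filter (fun y => y ⊂ x) = x.ssubsets := by
            ext y
            simp only [Finset.mem_filter, Finset.mem_ssubsets]
            exact ⟨fun h => h.2, fun h => ⟨h.trans hx', h⟩⟩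
          rw [h3]
          unfold hh
          refine Finset.sum_congr rfl fun y hy => ?_
          have hy' := (Finset.mem_ssubsets.1 hy).1
          have h4 : ∀ A : Finset V, A ∩ x ∩ y = A ∩ y := fun A => by
            rw [Finset.inter_assoc, Finset.inter_eq_right.2 hy']
          rw [h4, h4]
        rw [h1, Finset.sum_congr rfl h2, Finset.sum_comm]
        refine Finset.sum_eq_zero fun y hy => ?_
        rw [← Finset.sum_filter, Finset.sum_const, nsmul_eq_mul,
          between y ω (Finset.mem_ssubsets.1 hy), zero_mul]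
      rcases one_of G C ω S T hS hT hU hc with ⟨h1, h2⟩ | ⟨h1, h2⟩
      · rw [ff_in _ _ _ _ _ hc h1, ff_out _ _ _ _ _ hc h2, add_zero]
        exact CharTwo.add_eq_zero.1 hsym
      · rw [ff_out _ _ _ _ _ hc h1, ff_in _ _ _ _ _ hc h2, zero_add]

end FF1

open FF1

theorem ff_exists : S_FF := by
  intro V _ _ G C j F hF1 hF2
  refine ⟨ff G F, ⟨?_, ?_, ?_⟩, ?_⟩
  · intro ω S T v hS hT hU hvS hvT
    exact loc G C F ω.card ω S T v rfl hS hT hU hvS hvT
  · intro ω S T hS hT hU
    have h1 := zeta G C F hF2 ω.card ω S T rfl hS hT hU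
    have h2 : ∑ ω₀ ∈ ω.powerset, ff G F ω₀ (T ∩ ω₀) (S ∩ ω₀) =
        ff G F ω T S + hh G F ω T S := by
      have h3 : ω.powerset = insert ω ω.ssubsets := by
        ext x
        simp only [Finset.mem_powerset, Finset.mem_insert, Finset.mem_ssubsets]
        constructor
        · intro h
          by_cases h4 : x = ω
          · exact Or.inl h4
          · exact Or.inr (Finset.ssubset_iff_subset_ne.2 ⟨h, h4⟩)
        · rintro (rfl | h)
          · exact Finset.Subset.refl _
          · exact h.1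
      rw [h3, Finset.sum_insert (by simp)]
      have hS' : S ∩ ω = S := Finset.inter_eq_left.2 (hU ▸ Finset.subset_union_left)
      have hT' : T ∩ ω = T := Finset.inter_eq_left.2 (hU ▸ Finset.subset_union_right)
      rw [hS', hT']
      rfl
    rw [h2, ← h1, add_comm (ff G F ω S T), ← add_assoc, CharTwo.add_self_eq_zero, zero_add]
  · intro ω S T _ _ _ hj
    exact zero G F j hF1 ω.card ω S T rfl hj
  · intro ω hω
    exact ff_cl G F ω ω ω hω.1

end Pool.Agent.H6.RB
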