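import Pool.Agent.H6.RB.Defs

/-!
# Project RB: part SUP
-/

set_option autoImplicit false

namespace Pool.Agent.H6.RB

open Finset Pool.Agent.H6.RA

theorem sup_aux {V : Type} [Fintype V] [LinearOrder V] {G : SimpleGraph V} {C : Set V} {j : ℕ}
    {c : Finset V → ZMod 2} (hc : Cy G C j c) (σ : Finset (V ×ₗ Bool)) (h : c (pj σ) ≠ 0) (hσ : σ.card = j + 1) :
    (Oc G).IsClique (σ : Set (V ×ₗ Bool)) := by
  obtain ⟨h1, h2⟩ := hc.supp _ h
  have h3 : Set.InjOn (fun x : V ×ₗ Bool => (ofLex x).1) (σ : Set (V ×ₗ Bool)) := by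
    apply Finset.injOn_of_card_image_eq
    rw [hσ]
    exact h2
  intro x hx y hy hxy
  refine h1.1 ?_ ?_ fun e => hxy (h3 hx hy e)
  · exact mem_coe.2 (mem_image_of_mem _ (mem_coe.1 hx))
  · exact mem_coe.2 (mem_image_of_mem _ (mem_coe.1 hy))

theorem sup : S_SUP := by
  intro V _ _ G C j c f hc σ τ h
  unfold Zf at h
  split_ifs at h with h1
  · have h2 : c (pj σ) ≠ 0 := fun e => h (by rw [e, zero_mul, zero_mul])
    have h3 : c (pj τ) ≠ 0 := fun e => h (by rw [e, mul_zero, zero_mul])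
    exact ⟨sup_aux hc σ h2 h1.2.1, sup_aux hc τ h3 h1.2.2⟩
  · exact absurd rfl h

end Pool.Agent.H6.RB
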