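import Pool.Agent.H6.RB.Defs

set_option autoImplicit false

/-! # Project RB: `S_SYM` -/

noncomputable section

namespace Pool.Agent.H6.RB

open Finset Pool.Agent.W555.KS Pool.Agent.R782.Bal Pool.Agent.Y131.KS

namespace SymAux

variable {V : Type} [Fintype V] [LinearOrder V]

omit [Fintype V] in
lemma pj_inj {σ : Finset (V ×ₗ Bool)} (h : (pj σ).card = σ.card) {x y : V ×ₗ Bool} (hx : x ∈ σ)
    (hy : y ∈ σ) (hxy : (ofLex x).1 = (ofLex y).1) : x = y := by
  unfold pj at h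
  exact Finset.card_image_iff.1 h hx hy hxy

omit [Fintype V] in
lemma mem_pj {σ : Finset (V ×ₗ Bool)} {v : V} : v ∈ pj σ ↔ toLex (v, true) ∈ σ ∨ toLex (v, false) ∈ σ := by
  unfold pj
  rw [Finset.mem_image]
  constructor
  · rintro ⟨x, hx, rfl⟩
    rcases hb : (ofLex x).2 with _ | _
    · right
      have : x = toLex ((ofLex x).1, false) := by rw [← hb]; rfl
      rwa [← this]
    · left
      have : x = toLex ((ofLex x).1, true) := by rw [← hb]; rfl
      rwa [← this]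
  · rintro (h | h)
    · exact ⟨_, h, rfl⟩
    · exact ⟨_, h, rfl⟩

omit [Fintype V] in
lemma mem_Bt {σ τ : Finset (V ×ₗ Bool)} {v : V} :
    v ∈ Bt σ τ ↔ toLex (v, true) ∈ σ ∨ toLex (v, false) ∈ τ := by
  unfold Bt
  rw [Finset.mem_union, mem_pj, mem_pj]
  simp only [Finset.mem_filter, ofLex_toLex, and_true, Bool.false_eq_true, and_false, or_false,
    false_or, Bool.true_eq_false]

omit [Fintype V] in
lemma Bt_compl {σ τ : Finset (V ×ₗ Bool)} (hd : Disjoint σ τ) (h1 : (pj σ).card = σ.card)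
    (h2 : (pj τ).card = τ.card) : Bt τ σ = (pj σ ∪ pj τ) \ Bt σ τ := by
  ext v
  rw [Finset.mem_sdiff, Finset.mem_union, mem_pj, mem_pj, mem_Bt, mem_Bt]
  have a1 : ¬ (toLex (v, true) ∈ σ ∧ toLex (v, false) ∈ σ) := by
    rintro ⟨e1, e2⟩
    have := pj_inj h1 e1 e2 rfl
    have := congrArg (fun x => (ofLex x).2) this
    simp at this
  have a2 : ¬ (toLex (v, true) ∈ τ ∧ toLex (v, false) ∈ τ) := by
    rintro ⟨e1, e2⟩
    have := pj_inj h2 e1 e2 rfl
    have := congrArg (fun x => (ofLex x).2) this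
    simp at this
  have a3 : ¬ (toLex (v, true) ∈ σ ∧ toLex (v, true) ∈ τ) := fun h =>
    Finset.disjoint_left.1 hd h.1 h.2
  have a4 : ¬ (toLex (v, false) ∈ σ ∧ toLex (v, false) ∈ τ) := fun h =>
    Finset.disjoint_left.1 hd h.1 h.2
  tauto

end SymAux

open SymAux in
theorem sym : S_ZETA → S_SYM := by
  intro hZ V _ _ G C j c f hc hf σ τ
  unfold Zf
  by_cases h : Disjoint σ τ ∧ σ.card = j + 1 ∧ τ.card = j + 1
  · rw [if_pos h, if_pos ⟨h.1.symm, h.2.2, h.2.1⟩]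
    by_cases h0 : c (pj σ) = 0
    · rw [h0]; simp
    by_cases h0' : c (pj τ) = 0
    · rw [h0']; simp
    obtain ⟨s1, s2⟩ := hc.supp _ h0
    obtain ⟨t1, t2⟩ := hc.supp _ h0'
    have hB := Bt_compl h.1 (s2.trans h.2.1.symm) (t2.trans h.2.2.symm)
    have hsub : Bt σ τ ⊆ pj σ ∪ pj τ := by
      intro v hv
      rw [mem_Bt] at hv
      rw [Finset.mem_union, mem_pj, mem_pj]
      tauto
    rw [mul_comm (c (pj τ)) (c (pj σ))]
    congr 1
    rw [hB, Finset.union_comm (pj τ) (pj σ)]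
    rw [← hZ V (fun ω₀ => f ω₀ (pj τ ∩ ω₀) (pj σ ∩ ω₀)) (Bt σ τ) (pj σ ∪ pj τ) hsub]
    refine Finset.sum_congr rfl fun ω hω => ?_
    have hω2 : ω ⊆ pj σ ∪ pj τ := (Finset.mem_Icc.1 hω).2
    have sx : ∀ {T ω : Finset V}, Sx G C T → Sx G C (T ∩ ω) := fun hT =>
      ⟨hT.1.subset (by exact_mod_cast Finset.inter_subset_left),
        (by exact_mod_cast Finset.inter_subset_left : ((_ : Finset V) : Set V) ⊆ _).trans hT.2⟩
    rw [hf.zeta ω (pj σ ∩ ω) (pj τ ∩ ω) (sx s1) (sx t1) (by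
      rw [← Finset.union_inter_distrib_right]
      exact Finset.inter_eq_right.2 hω2)]
    refine Finset.sum_congr rfl fun ω₀ hω₀ => ?_
    have h3 : ω ∩ ω₀ = ω₀ := Finset.inter_eq_right.2 (Finset.mem_powerset.1 hω₀)
    rw [Finset.inter_assoc, Finset.inter_assoc, h3]
  · rw [if_neg h, if_neg fun h' => h ⟨h'.1.symm, h'.2.2, h'.2.1⟩]

end Pool.Agent.H6.RB
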