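import Pool.Agent.H6.RB.Defs

/-!
# Project RB: part ZETA
-/

set_option autoImplicit false

namespace Pool.Agent.H6.RB

open Finset

theorem zeta : S_ZETA := by
  intro V _ _ a B φ hB
  classical
  have h1 : ∀ ω ∈ Finset.Icc B φ, ∑ ω₀ ∈ ω.powerset, a ω₀ = ∑ ω₀ ∈ φ.powerset, if ω₀ ⊆ ω then a ω₀ else 0 := by
    intro ω hω
    rw [mem_Icc] at hω
    rw [← sum_filter]
    refine sum_congr ?_ fun _ _ => rfl
    ext x
    simp only [mem_powerset, mem_filter]
    exact ⟨fun h => ⟨h.trans hω.2, h⟩, fun h => h.2⟩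
  rw [sum_congr rfl h1, sum_comm]
  have h2 : ∀ ω₀ ∈ φ.powerset, ∑ ω ∈ Finset.Icc B φ, (if ω₀ ⊆ ω then a ω₀ else 0) =
      if φ \ B ⊆ ω₀ then a ω₀ else 0 := by
    intro ω₀ h0
    rw [mem_powerset] at h0
    rw [← sum_filter, sum_const]
    have e1 : (Finset.Icc B φ).filter (fun ω => ω₀ ⊆ ω) = Finset.Icc (B ∪ ω₀) φ := by
      ext x
      simp only [mem_filter, mem_Icc, le_iff_subset, union_subset_iff]
      tauto
    rw [e1]
    have h3 : B ∪ ω₀ ⊆ φ := union_subset hB h0
    rw [Finset.card_Icc_finset h3]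
    by_cases hc : φ \ B ⊆ ω₀
    · rw [if_pos hc]
      have : B ∪ ω₀ = φ := by
        apply subset_antisymm h3
        intro x hx
        by_cases hxB : x ∈ B
        · exact mem_union_left _ hxB
        · exact mem_union_right _ (hc (mem_sdiff.2 ⟨hx, hxB⟩))
      rw [this, Nat.sub_self, pow_zero, one_smul]
    · rw [if_neg hc]
      have h4 : (B ∪ ω₀).card < φ.card := by
        apply card_lt_card
        refine ⟨h3, fun h5 => hc fun x hx => ?_⟩
        rcases mem_union.1 (h5 (mem_sdiff.1 hx).1) with h6 | h6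
        · exact absurd h6 (mem_sdiff.1 hx).2
        · exact h6
      obtain ⟨k, hk⟩ : ∃ k, φ.card - (B ∪ ω₀).card = k + 1 := ⟨φ.card - (B ∪ ω₀).card - 1, by omega⟩
      rw [hk, pow_succ, mul_comm, mul_smul, two_smul, CharTwo.add_self_eq_zero]
  rw [sum_congr rfl h2, ← sum_filter]
  refine sum_congr ?_ fun _ _ => rfl
  ext x
  simp only [mem_filter, mem_powerset, mem_Icc, le_iff_subset]
  tauto

end Pool.Agent.H6.RB
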