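import Pool.Agent.H6.RB.Defs2
import Pool.Agent.H6.RB.DUAL
import Pool.Agent.H6.RB.EXT
import Pool.Agent.H6.RB.FF
import Pool.Agent.H6.RB.SYM
import Pool.Agent.H6.RB.SUP
import Pool.Agent.H6.RB.CYC
import Pool.Agent.H6.RB.EVAL
import Pool.Agent.H6.RB.ZETA

/-!
# Project RB, second part: the chain if all vertices are doubled
-/

set_option autoImplicit false

namespace Pool.Agent.H6.RB

open Finset Pool.Agent.H6.RA

namespace BaseAux

/-- the position in a finite linear order -/
def rk {X : Type} [Fintype X] [LinearOrder X] (x : X) : ℕ := (univ.filter (fun w => w < x)).card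

theorem rk_strictMono {X : Type} [Fintype X] [LinearOrder X] : StrictMono (rk (X := X)) := by
  intro x y h
  apply card_lt_card
  rw [ssubset_iff_of_subset]
  · exact ⟨x, mem_filter.2 ⟨mem_univ _, h⟩, fun h' => lt_irrefl x (mem_filter.1 h').2⟩
  · intro w hw
    exact mem_filter.2 ⟨mem_univ _, lt_trans (mem_filter.1 hw).2 h⟩

theorem evR_rk {X : Type} [Fintype X] [LinearOrder X] (U : Finset X) : evR rk U = evX U := by
  simp only [evR, evX, rk_strictMono.lt_iff_lt]

theorem odR_rk {X : Type} [Fintype X] [LinearOrder X] (U : Finset X) : odR rk U = odX U := by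
  simp only [odR, odX, rk_strictMono.lt_iff_lt]

theorem sup_C {V : Type} [Fintype V] [LinearOrder V] {G : SimpleGraph V} {C : Set V} {j : ℕ}
    {c : Finset V → ZMod 2} (hc : Cy G C j c) (σ : Finset (V ×ₗ Bool)) (h : c (pj σ) ≠ 0) :
    (σ : Set (V ×ₗ Bool)) ⊆ {x | (ofLex x).1 ∈ C} := by
  intro x hx
  exact (hc.supp _ h).1.2 (mem_coe.2 (mem_image_of_mem _ (mem_coe.1 hx)))

end BaseAux

/-- RB2-BASE -/
theorem base : S_BASE := by
  intro V _ _ G C k hco hup
  refine ⟨BaseAux.rk, ?_⟩
  cases k with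
  | zero =>
    refine ⟨fun σ τ => if σ = ∅ ∧ τ = ∅ then 1 else 0, BaseAux.rk_strictMono.injective, ?_, ?_, ?_, ?_⟩
    · intro σ τ
      simp only [and_comm]
    · intro σ τ h
      have h' : σ = ∅ ∧ τ = ∅ := by
        by_contra hn
        exact h (if_neg hn)
      obtain ⟨rfl, rfl⟩ := h'
      simp
    · intro σ τ _
      refine sum_eq_zero fun x _ => if_neg fun h => ?_
      exact insert_ne_empty _ _ h.1
    · rw [Nat.mul_zero, powersetCard_zero, sum_singleton]
      have e1 : evR BaseAux.rk (∅ : Finset (V ×ₗ Bool)) = ∅ := filter_empty _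
      have e2 : odR BaseAux.rk (∅ : Finset (V ×ₗ Bool)) = ∅ := filter_empty _
      rw [e1, e2, if_pos ⟨rfl, rfl⟩]
      exact one_ne_zero
  | succ j =>
    obtain ⟨r, c, hr, hc, hrc⟩ := dual V G C j hco
    obtain ⟨F, hF0, hF1, hF2⟩ := ext zeta V G C j r hr (fun i hi => hup (i + 1) (by omega))
    obtain ⟨f, hf, hfF⟩ := ff_exists V G C j F hF0 hF2
    refine ⟨Zf j c f, BaseAux.rk_strictMono.injective, sym zeta V G C j c f hc hf, ?_,
      cyc V G C j c f hc hf, ?_⟩
    · intro σ τ h
      obtain ⟨h1, h2⟩ := sup V G C j c f hc σ τ h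
      unfold Zf at h
      split_ifs at h with h3
      · have h4 : c (pj σ) ≠ 0 := fun e => h (by rw [e, zero_mul, zero_mul])
        have h5 : c (pj τ) ≠ 0 := fun e => h (by rw [e, mul_zero, zero_mul])
        exact ⟨⟨h1, h3.2.1, BaseAux.sup_C hc σ h4⟩, ⟨h2, h3.2.2, BaseAux.sup_C hc τ h5⟩⟩
      · exact absurd rfl h
    · intro e1
      have e2 := eval V G C j c f hc hf
      simp only [BaseAux.evR_rk, BaseAux.odR_rk] at e1
      rw [e2] at e1
      apply hrc
      rw [← e1]
      refine sum_congr rfl fun T _ => ?_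
      by_cases hT : c T = 0
      · rw [hT, zero_mul, zero_mul, zero_mul]
      · obtain ⟨hS, hcard⟩ := hc.supp T hT
        rw [hfF T hS, hF1 T hS hcard]
        have h10 : ∀ x : ZMod 2, x * x = x := by decide
        rw [h10]

end Pool.Agent.H6.RB
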