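import Pool.Agent.H6.RA.Defs
import Pool.Agent.H7.L.R782_Bal_Emb

/-!
# Project RB (helper6): the van Kampen obstruction of the octahedralisation `OL` of a flag complex. Definitions.
-/

set_option autoImplicit false

noncomputable section

namespace Pool.Agent.H6.RB

open Finset Pool.Agent.W555.KS Pool.Agent.R782.Bal Pool.Agent.H6.RA Pool.Agent.W907.SG Pool.Agent.Y131.KS

/-- the simplices of the full subcomplex on `C` of the flag complex of `G` -/
def Sx {V : Type} (G : SimpleGraph V) (C : Set V) (T : Finset V) : Prop := G.IsClique (T : Set V) ∧ (T : Set V) ⊆ C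

/-- the vertices of `V` below `σ` -/
def pj {V : Type} [DecidableEq V] (σ : Finset (V ×ₗ Bool)) : Finset V := σ.image (fun x => (ofLex x).1)

/-- the vertices `v` with `(v, true) ∈ σ` or `(v, false) ∈ τ` -/
def Bt {V : Type} [DecidableEq V] (σ τ : Finset (V ×ₗ Bool)) : Finset V :=
  pj (σ.filter (fun x => (ofLex x).2 = true)) ∪ pj (τ.filter (fun x => (ofLex x).2 = false))

/-- the main chain on the deleted join -/
def Zf {V : Type} [Fintype V] [LinearOrder V] (j : ℕ) (c : Finset V → ZMod 2)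
    (f : Finset V → Finset V → Finset V → ZMod 2) (σ τ : Finset (V ×ₗ Bool)) : ZMod 2 :=
  if Disjoint σ τ ∧ σ.card = j + 1 ∧ τ.card = j + 1 then
    c (pj σ) * c (pj τ) * ∑ ω ∈ Finset.Icc (Bt σ τ) (pj σ ∪ pj τ), f ω (pj σ ∩ ω) (pj τ ∩ ω) else 0

/-- the properties of the coefficients `f` -/
structure FF {V : Type} [Fintype V] [LinearOrder V] (G : SimpleGraph V) (C : Set V) (j : ℕ)
    (f : Finset V → Finset V → Finset V → ZMod 2) : Prop where
  loc : ∀ ω S T v, Sx G C S → Sx G C T → S ∪ T = ω → v ∈ S → v ∈ T → f ω (S.erase v) T = f ω S T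
  zeta : ∀ ω S T, Sx G C S → Sx G C T → S ∪ T = ω → f ω S T = ∑ ω₀ ∈ ω.powerset, f ω₀ (T ∩ ω₀) (S ∩ ω₀)
  zero : ∀ ω S T, Sx G C S → Sx G C T → S ∪ T = ω → ω.card ≤ j → f ω S T = 0

/-- `c` is a mod 2 cycle on the simplices with `j + 1` vertices -/
structure Cy {V : Type} [Fintype V] [LinearOrder V] (G : SimpleGraph V) (C : Set V) (j : ℕ)
    (c : Finset V → ZMod 2) : Prop where
  supp : ∀ T, c T ≠ 0 → Sx G C T ∧ T.card = j + 1
  cyc : ∀ T, ∑ v ∈ Tᶜ, c (insert v T) = 0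

/-- elements of even rank in `U`, in a linear order -/
def evX {X : Type} [LinearOrder X] (U : Finset X) : Finset X := U.filter (fun u => Even (U.filter (fun w => w < u)).card)

/-- elements of odd rank in `U`, in a linear order -/
def odX {X : Type} [LinearOrder X] (U : Finset X) : Finset X := U.filter (fun u => ¬ Even (U.filter (fun w => w < u)).card)

/-- the cohomology with coefficients `ZMod 2` of the full subcomplex on `C` vanishes in degree `i` (the cochains live on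
the simplices with `i + 1` vertices) -/
def Co {V : Type} [Fintype V] [LinearOrder V] (G : SimpleGraph V) (C : Set V) (i : ℕ) : Prop :=
  ∀ r : Finset V → ZMod 2, (∀ T, Sx G C T → T.card = i + 2 → ∑ v ∈ T, r (T.erase v) = 0) →
    ∃ b : Finset V → ZMod 2, ∀ T, Sx G C T → T.card = i + 1 → ∑ v ∈ T, b (T.erase v) = r T

/-! ## the parts -/

/-- RB-ZETA: inversion over `ZMod 2` -/
def S_ZETA : Prop := ∀ (V : Type) [Fintype V] [LinearOrder V] (a : Finset V → ZMod 2) (B φ : Finset V), B ⊆ φ →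
  ∑ ω ∈ Finset.Icc B φ, ∑ ω₀ ∈ ω.powerset, a ω₀ = ∑ ω₀ ∈ Finset.Icc (φ \ B) φ, a ω₀

/-- RB-FF: existence of the coefficients -/
def S_FF : Prop := ∀ (V : Type) [Fintype V] [LinearOrder V] (G : SimpleGraph V) (C : Set V) (j : ℕ) (F : Finset V → ZMod 2),
  (∀ ω, ω.card ≤ j → F ω = 0) → (∀ ω, Sx G C ω → ∑ ω₀ ∈ ω.ssubsets, F ω₀ = 0) →
  ∃ f : Finset V → Finset V → Finset V → ZMod 2, FF G C j f ∧ ∀ ω, Sx G C ω → f ω ω ω = F ω

/-- RB-SYM -/
def S_SYM : Prop := ∀ (V : Type) [Fintype V] [LinearOrder V] (G : SimpleGraph V) (C : Set V) (j : ℕ)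
  (c : Finset V → ZMod 2) (f : Finset V → Finset V → Finset V → ZMod 2), Cy G C j c → FF G C j f →
  ∀ σ τ, Zf j c f σ τ = Zf j c f τ σ

/-- RB-SUP -/
def S_SUP : Prop := ∀ (V : Type) [Fintype V] [LinearOrder V] (G : SimpleGraph V) (C : Set V) (j : ℕ)
  (c : Finset V → ZMod 2) (f : Finset V → Finset V → Finset V → ZMod 2), Cy G C j c →
  ∀ σ τ, Zf j c f σ τ ≠ 0 → (Oc G).IsClique (σ : Set (V ×ₗ Bool)) ∧ (Oc G).IsClique (τ : Set (V ×ₗ Bool))

/-- RB-CYC -/
def S_CYC : Prop := ∀ (V : Type) [Fintype V] [LinearOrder V] (G : SimpleGraph V) (C : Set V) (j : ℕ)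
  (c : Finset V → ZMod 2) (f : Finset V → Finset V → Finset V → ZMod 2), Cy G C j c → FF G C j f →
  ∀ ρ τ : Finset (V ×ₗ Bool), Disjoint ρ τ → ∑ x ∈ (ρ ∪ τ)ᶜ, Zf j c f (insert x ρ) τ = 0

/-- RB-EVAL: the value of the obstruction -/
def S_EVAL : Prop := ∀ (V : Type) [Fintype V] [LinearOrder V] (G : SimpleGraph V) (C : Set V) (j : ℕ)
  (c : Finset V → ZMod 2) (f : Finset V → Finset V → Finset V → ZMod 2), Cy G C j c → FF G C j f →
  ∑ U ∈ powersetCard (2 * (j + 1)) (univ : Finset (V ×ₗ Bool)), Zf j c f (evX U) (odX U) =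
    ∑ ω : Finset V, c ω * c ω * f ω ω ω

/-- RB-TRANS: the numbering by the lexicographic order -/
def S_TRANS : Prop := ∀ (X : Type) [Fintype X] [LinearOrder X] (H : SimpleGraph X) (D : ℕ)
  (hO : ∀ (n : ℕ) (e : X ≃ Fin n), VK2 (clF H e) D) (Z : Finset X → Finset X → ZMod 2),
  (∀ σ τ, Z σ τ = Z τ σ) → (∀ σ τ, Z σ τ ≠ 0 → H.IsClique (σ : Set X) ∧ H.IsClique (τ : Set X)) →
  (∀ ρ τ : Finset X, Disjoint ρ τ → ρ.card + τ.card + 1 = D →
    ∑ x ∈ (ρ ∪ τ)ᶜ, (Z (insert x ρ) τ + Z ρ (insert x τ)) = 0) →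
  ∑ U ∈ powersetCard D (univ : Finset X), Z (evX U) (odX U) = 0

/-- RB-LA: linear algebra -/
def S_LA : Prop := ∀ (K m n : Type) [Field K] [Fintype m] [Fintype n] [DecidableEq m] (g : (n → K) →ₗ[K] (m → K)) (a : m → K),
  (¬ ∃ b, g b = a) → ∃ c : m → K, (∀ b, ∑ i, c i * g b i = 0) ∧ ∑ i, c i * a i ≠ 0

/-- RB-EXT: extension of a cocycle if the cohomology vanishes above its degree -/
def S_EXT : Prop := ∀ (V : Type) [Fintype V] [LinearOrder V] (G : SimpleGraph V) (C : Set V) (j : ℕ)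
  (r : Finset V → ZMod 2), (∀ T, Sx G C T → T.card = j + 2 → ∑ v ∈ T, r (T.erase v) = 0) →
  (∀ i, j + 2 ≤ i → Co G C i) →
  ∃ F : Finset V → ZMod 2, (∀ ω, ω.card ≤ j → F ω = 0) ∧ (∀ ω, Sx G C ω → ω.card = j + 1 → F ω = r ω) ∧
    ∀ ω, Sx G C ω → ∑ ω₀ ∈ ω.ssubsets, F ω₀ = 0

/-- RB-DUAL: a cocycle which is not a coboundary is nonzero on a cycle -/
def S_DUAL : Prop := ∀ (V : Type) [Fintype V] [LinearOrder V] (G : SimpleGraph V) (C : Set V) (i : ℕ),
  ¬ Co G C i → ∃ (r c : Finset V → ZMod 2), (∀ T, Sx G C T → T.card = i + 2 → ∑ v ∈ T, r (T.erase v) = 0) ∧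
    Cy G C i c ∧ ∑ T, c T * r T ≠ 0

/-- RB-RAT: vanishing of the mod 2 cohomology gives vanishing of the rational homology -/
def S_RAT : Prop := ∀ (V : Type) [Fintype V] [LinearOrder V] (G : SimpleGraph V) (C : Set V) (i : ℕ),
  Co G C i → Ac G C (i + 1)

/-- RB-EMB2: the obstruction vanishes in all higher degrees -/
def S_EMB2 : Prop := ∀ (d : ℕ) (X : Type) (H : SimpleGraph X), Emb d H → ∀ D, 2 * (d + 1) ≤ D →
  ∀ (n : ℕ) (e : X ≃ Fin n), VK2 (clF H e) D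

end Pool.Agent.H6.RB
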