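import Pool.Agent.H6.RB.Defs

/-!
# Project RB (helper6), second part: nerves in which only some vertices are doubled
-/

set_option autoImplicit false

noncomputable section

namespace Pool.Agent.H6.RB

open Finset Pool.Agent.W555.KS Pool.Agent.R782.Bal Pool.Agent.H6.RA Pool.Agent.W907.SG Pool.Agent.Y131.KS

/-- the vertices `(v, false)` for all `v`, and `(v, true)` for `v ∈ D` -/
def SD {V : Type} (D : Set V) : Set (V ×ₗ Bool) := {x | (ofLex x).2 = true → (ofLex x).1 ∈ D}

/-- the graph `G` with the vertices in `D` doubled: the full subgraph of `Oc G` on the vertices `(v, false)` for all `v` and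
`(v, true)` for `v ∈ D` -/
def Od {V : Type} (G : SimpleGraph V) (D : Set V) : SimpleGraph ↥(SD D) := (Oc G).induce (SD D)

/-- every vertex outside `D` is dominated by a vertex in `D` which is not adjacent to it -/
def Dominating {V : Type} (G : SimpleGraph V) (D : Set V) : Prop :=
  ∀ a, a ∉ D → ∃ u ∈ D, ¬ G.Adj a u ∧ ∀ w, G.Adj a w → G.Adj u w

/-- elements of even rank in `U`, in the order given by `ρ` -/
def evR {X : Type} [DecidableEq X] (ρ : X → ℕ) (U : Finset X) : Finset X :=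
  U.filter (fun u => Even (U.filter (fun w => ρ w < ρ u)).card)

/-- elements of odd rank in `U`, in the order given by `ρ` -/
def odR {X : Type} [DecidableEq X] (ρ : X → ℕ) (U : Finset X) : Finset X :=
  U.filter (fun u => ¬ Even (U.filter (fun w => ρ w < ρ u)).card)

/-- `Z` is a symmetric cycle of pairs of disjoint simplices with `q` vertices each, in `B`, with a nonzero value of the
obstruction for the order given by `ρ` -/
structure Gd {X : Type} [Fintype X] [DecidableEq X] (H : SimpleGraph X) (B : Set X) (q : ℕ) (ρ : X → ℕ)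
    (Z : Finset X → Finset X → ZMod 2) : Prop where
  inj : Function.Injective ρ
  symm : ∀ σ τ, Z σ τ = Z τ σ
  supp : ∀ σ τ, Z σ τ ≠ 0 → (H.IsClique (σ : Set X) ∧ σ.card = q ∧ (σ : Set X) ⊆ B) ∧
    (H.IsClique (τ : Set X) ∧ τ.card = q ∧ (τ : Set X) ⊆ B)
  cyc : ∀ σ τ : Finset X, Disjoint σ τ → ∑ x ∈ (σ ∪ τ)ᶜ, Z (insert x σ) τ = 0
  ev : ∑ U ∈ powersetCard (2 * q) (univ : Finset X), Z (evR ρ U) (odR ρ U) ≠ 0

/-- the reduced cohomology mod 2 of the full subcomplex on `C` vanishes in the degree `k - 1`, `k ≥ 0` (the cochains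
live on the simplices with `k` vertices); `Co G C i` is `Co1 G C (i + 1)` -/
def Co1 {V : Type} [Fintype V] [LinearOrder V] (G : SimpleGraph V) (C : Set V) (k : ℕ) : Prop :=
  ∀ r : Finset V → ZMod 2, (∀ T, Sx G C T → T.card = k + 1 → ∑ v ∈ T, r (T.erase v) = 0) →
    ∃ b : Finset V → ZMod 2, ∀ T, Sx G C T → T.card = k → ∑ v ∈ T, b (T.erase v) = r T

theorem co_iff {V : Type} [Fintype V] [LinearOrder V] (G : SimpleGraph V) (C : Set V) (i : ℕ) :
    Co G C i ↔ Co1 G C (i + 1) := Iff.rfl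

/-! ## the parts -/

/-- RB2-TRN: a good chain supported in `S` contradicts the vanishing of the obstruction of the full subgraph on `S` -/
def S_TRN : Prop := ∀ (X : Type) [Fintype X] [DecidableEq X] (H : SimpleGraph X) (S : Set X) (q : ℕ) (ρ : X → ℕ)
  (Z : Finset X → Finset X → ZMod 2), (∀ (n : ℕ) (e : ↥S ≃ Fin n), VK2 (clF (H.induce S) e) (2 * q)) →
  Gd H S q ρ Z → False

/-- RB2-JOIN: the join with three further vertices -/
def S_JOIN : Prop := ∀ (X : Type) [Fintype X] [DecidableEq X] (H : SimpleGraph X) (B : Set X) (q : ℕ) (ρ : X → ℕ)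
  (Z : Finset X → Finset X → ZMod 2) (x y z : X), x ≠ y → y ≠ z → x ≠ z →
  (∀ b ∈ B, H.Adj x b ∧ H.Adj y b ∧ H.Adj z b) → Gd H B q ρ Z →
  ∃ (ρ' : X → ℕ) (Z' : Finset X → Finset X → ZMod 2), Gd H (B ∪ {x, y, z}) (q + 1) ρ' Z'

/-- RB2-MV: adding the vertex `a` -/
def S_MV : Prop := ∀ (V : Type) [Fintype V] [LinearOrder V] (G : SimpleGraph V) (C : Set V) (a : V) (k : ℕ), a ∈ C →
  Co1 G (C \ {a}) (k + 1) → Co1 G (C ∩ {v | G.Adj a v}) k → Co1 G C (k + 1)

/-- RB2-BASE: the chain if all vertices are doubled -/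
def S_BASE : Prop := ∀ (V : Type) [Fintype V] [LinearOrder V] (G : SimpleGraph V) (C : Set V) (k : ℕ),
  ¬ Co1 G C k → (∀ i, k < i → Co1 G C i) →
  ∃ (ρ : V ×ₗ Bool → ℕ) (Z : Finset (V ×ₗ Bool) → Finset (V ×ₗ Bool) → ZMod 2),
    Gd (Oc G) {x | (ofLex x).1 ∈ C} k ρ Z

end Pool.Agent.H6.RB
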