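import Pool.Agent.H6.RB.Defs

/-!
# Project RB: part EMB2
-/

set_option autoImplicit false

namespace Pool.Agent.H6.RB

open Finset Pool.Agent.W555.KS Pool.Agent.R782.Bal Pool.Agent.H6.RA Pool.Agent.W907.SG Pool.Agent.Y131.KS

theorem emb2 : S_EMB2 := by
  classical
  intro d X H h D hD n e
  refine vk2_le (clF_cx H e) hD ?_
  cases h with
  | @sphere N n' K f hn hK hf =>
    refine vk2_le (clF_cx H e) (D := n' + 1) (by omega) ?_
    refine vk2_of_sphere hK (e.symm.toEmbedding.trans f) fun σ hσ => ?_
    rw [← map_map]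
    exact hf _ (mem_clF.mp hσ)
  | unit F hfin hF hn hinj =>
    have hmem : ∀ x ∈ Pool.Agent.W289.KS.rea (clF H e), (fun v => x (e v)) ∈ Rea H := by
      rintro x ⟨h1, h2, σ, hσ, h3⟩
      refine ⟨fun v => h1 _, ?_, ?_⟩
      · have : Fintype X := Fintype.ofFinite X
        rw [finsum_eq_sum_of_fintype, ← h2]
        exact Fintype.sum_equiv e _ _ fun v => rfl
      · have h4 := mem_clF.mp hσ
        refine h4.subset ?_
        intro v hv
        rw [mem_coe, mem_map]
        refine ⟨e v, ?_, e.symm_apply_apply v⟩
        by_contra h5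
        exact hv (h3 _ h5)
    have hC : ConeEmb (clF H e) (2 * d + 1) := by
      refine cone_of_almost _ (fun x => F fun v => x (e v)) ?_ ?_ ?_
      · refine hF.comp (Continuous.continuousOn ?_) hmem
        exact continuous_pi fun v => continuous_apply _
      · intro x hx
        exact hn _ (hmem x hx)
      · intro x hx y hy hxy
        exact hinj _ (hmem x hx) _ (hmem y hy) (fun v => hxy (e v))
    exact vk2_of_odd (clF_cx H e) (odd_of_coneEmb (clF_cx H e) hC)

end Pool.Agent.H6.RB
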