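import Pool.Agent.H6.RB.MAIN
import Pool.Agent.H6.RA.FIN2

/-!
# Project RB (helper6): the theorem
-/

set_option autoImplicit false
set_option linter.unusedSectionVars false

namespace Pool.Agent.H6.RB

open Finset Pool.Agent.W555.KS Pool.Agent.R782.Bal Pool.Agent.H6.RA Pool.Agent.W907.SG Pool.Agent.Y131.KS
open Pool.Agent.W461.SGN Pool.Agent.N496.CV

/-- the hypothesis: `OL` is almost embedded in the `2d`-sphere, or its van Kampen obstruction vanishes -/
theorem raise (hE : S_EMB2) {X : Type} {H : SimpleGraph X} {d : ℕ} (h : Emb d H ∨ Obs H (2 * (d + 1))) :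
    ∀ D, 2 * (d + 1) ≤ D → ∀ (n : ℕ) (e : X ≃ Fin n), VK2 (clF H e) D := by
  intro D hD n e
  rcases h with h | h
  · exact hE d X H h D hD n e
  · exact vk2_le (clF_cx H e) hD (fun Z h1 h2 h3 => h n e (ZMod 2) Z h1 h2 h3)

/-- the vanishing of the homology of `L` and its full subcomplexes, and of the `L²`-Betti numbers -/
theorem q1 (h0 : S_EMB2) (h1 : S_FF) (h2 : S_SYM) (h3 : S_SUP) (h4 : S_CYC) (h5 : S_EVAL) (h6 : S_TRANS) (h7 : S_EXT)
    (h8 : S_DUAL) (h9 : S_RAT) {V : Type} [Fintype V] [LinearOrder V] (G : SimpleGraph V) (d : ℕ)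
    (h : Emb d (Oc G) ∨ Obs (Oc G) (2 * (d + 1))) :
    (∀ (C : Set V) (i : ℕ), d ≤ i → Co G C i ∧ Ac G C (i + 1)) ∧
    (∀ (K : Type) [Group K] (f : K →* W (Oc G)), Function.Injective f → f.range ≤ (th (Oc G)).ker →
      ∀ i : ℕ, d < i → HasL2Betti K i 0) ∧
    ∀ (K : Subgroup (RAAG G)) (i : ℕ), d < i → HasL2Betti K i 0 := by
  have hco : ∀ (C : Set V) (i : ℕ), d ≤ i → Co G C i := fun C i hi =>
    co_van h1 h2 h3 h4 h5 h6 h7 h8 G C d (raise h0 h) i hi
  have hac : ∀ (C : Set V) (i : ℕ), d < i → Ac G C i := by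
    intro C i hi
    obtain ⟨n, rfl⟩ : ∃ n, i = n + 1 := ⟨i - 1, by omega⟩
    exact h9 V G C n (hco C n (by omega))
  refine ⟨fun C i hi => ⟨hco C i hi, hac C (i + 1) (by omega)⟩, ?_, ?_⟩
  · intro K _ f hf hf2 i hi
    exact fin2 G i (by omega) K f hf hf2 fun τ _ _ => hac _ i hi
  · intro K i hi
    exact fin3 G i (by omega) (fun τ _ => hac _ i hi) K

end Pool.Agent.H6.RB
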