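import Pool.Agent.H6.RB.IND
import Pool.Agent.H6.RB.FIN
import Pool.Agent.H7.L.N496_CV_P_SPEC

/-!
# Project RB (helper6), second part: the theorem
-/

set_option autoImplicit false
set_option linter.unusedSectionVars false

namespace Pool.Agent.H6.RB

open Finset Pool.Agent.W555.KS Pool.Agent.R782.Bal Pool.Agent.H6.RA Pool.Agent.W907.SG Pool.Agent.Y131.KS
open Pool.Agent.W461.SGN Pool.Agent.N496.CV Pool.Agent.N496.CV.PSPEC

open Classical in
/-- extension by one -/
noncomputable def exh {X : Type} (S : Set X) : (↥S → ℤˣ) →* (X → ℤˣ) where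
  toFun f x := if h : x ∈ S then f ⟨x, h⟩ else 1
  map_one' := by
    funext x
    by_cases h : x ∈ S <;> simp [h]
  map_mul' f g := by
    funext x
    by_cases h : x ∈ S <;> simp [h]

theorem exh_in {X : Type} (S : Set X) (f : ↥S → ℤˣ) (x : X) (h : x ∈ S) : exh S f x = f ⟨x, h⟩ := dif_pos h

theorem exh_out {X : Type} (S : Set X) (f : ↥S → ℤˣ) (x : X) (h : x ∉ S) : exh S f x = 1 := dif_neg h

/-- the special subgroups -/
theorem embW {X : Type} (H : SimpleGraph X) (S : Set X) : ∃ ι : W (H.induce S) →* W H, Function.Injective ι ∧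
    (∀ s, ι ((cox (H.induce S)).simple s) = (cox H).simple s.1) ∧ ∀ g, g ∈ (th (H.induce S)).ker → ι g ∈ (th H).ker := by
  classical
  refine ⟨inc H S, Function.LeftInverse.injective (ret_inc H S), inc_simple H S, fun g hg => ?_⟩
  have h : (th H).comp (inc H S) = (exh S).comp (th (H.induce S)) := by
    refine (cox (H.induce S)).toCoxeterSystem.ext_simple fun v => ?_
    show th H (inc H S ((cox (H.induce S)).simple v)) = exh S (th (H.induce S) ((cox (H.induce S)).simple v))
    rw [inc_simple, th_simple, th_simple]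
    funext x
    by_cases hx : x ∈ S
    · rw [exh_in S _ x hx]
      by_cases hxv : x = v.1
      · rw [if_pos hxv, if_pos (Subtype.ext hxv)]
      · rw [if_neg hxv, if_neg (fun e => hxv (congrArg Subtype.val e))]
    · rw [exh_out S _ x hx]
      have hxv : ¬ x = v.1 := fun e => hx (by rw [e]; exact v.2)
      rw [if_neg hxv]
  rw [MonoidHom.mem_ker] at hg ⊢
  have h2 := DFunLike.congr_fun h g
  rw [MonoidHom.comp_apply, MonoidHom.comp_apply, hg, map_one] at h2
  exact h2

/-- the vanishing of the homology of `L` and its full subcomplexes, and of the `L²`-Betti numbers -/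
theorem q2 (h0 : S_EMB2) (h9 : S_RAT) (hT : S_TRN) (hJ : S_JOIN) (hM : S_MV) (hB : S_BASE)
    {V : Type} [Fintype V] [LinearOrder V] (G : SimpleGraph V) (D : Set V) (hD : Dominating G D) (d : ℕ)
    (h : Emb d (Od G D) ∨ Obs (Od G D) (2 * (d + 1))) :
    (∀ (C : Set V) (i : ℕ), d ≤ i → Co G C i ∧ Ac G C (i + 1)) ∧
    (∀ (K : Type) [Group K] (f : K →* W (Oc G)), Function.Injective f → f.range ≤ (th (Oc G)).ker →
      ∀ i : ℕ, d < i → HasL2Betti K i 0) ∧
    ∀ (K : Subgroup (RAAG G)) (i : ℕ), d < i → HasL2Betti K i 0 := by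
  have hco : ∀ (C : Set V) (i : ℕ), d ≤ i → Co G C i := co_van2 hT hJ hM hB G D hD d (raise h0 h)
  have hac : ∀ (C : Set V) (i : ℕ), d < i → Ac G C i := by
    intro C i hi
    obtain ⟨n, rfl⟩ : ∃ n, i = n + 1 := ⟨i - 1, by omega⟩
    exact h9 V G C n (hco C n (by omega))
  refine ⟨fun C i hi => ⟨hco C i hi, hac C (i + 1) (by omega)⟩, ?_, ?_⟩
  · intro K _ f hf hf2 i hi
    exact fin2 G i (by omega) K f hf hf2 fun τ _ _ => hac _ i hi
  · intro K i hi
    exact fin3 G i (by omega) (fun τ _ => hac _ i hi) K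

/-- the subgroups of the right-angled Coxeter group with the partially doubled nerve -/
theorem q3 {V : Type} [Fintype V] [LinearOrder V] (G : SimpleGraph V) (D : Set V) (i : ℕ)
    (h : ∀ (K : Type) [Group K] (f : K →* W (Oc G)), Function.Injective f → f.range ≤ (th (Oc G)).ker → HasL2Betti K i 0)
    (K : Type) [Group K] (f : K →* W (Od G D)) (hf : Function.Injective f) (hf2 : f.range ≤ (th (Od G D)).ker) :
    HasL2Betti K i 0 := by
  obtain ⟨ι, h1, _, h3⟩ := embW (Oc G) (SD D)
  refine h K (ι.comp f) (h1.comp hf) ?_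
  rintro _ ⟨k, rfl⟩
  exact h3 _ (hf2 ⟨k, rfl⟩)

/-- the kernel has finite index -/
theorem fi {X : Type} [Finite X] (H : SimpleGraph X) : (th H).ker.FiniteIndex := by
  have : Fintype X := Fintype.ofFinite X
  infer_instance

/-- the kernel is torsion free -/
theorem tfd {X : Type} [Finite X] (H : SimpleGraph X) : ∀ g ∈ (th H).ker, ∀ j : ℕ, 0 < j → g ^ j = 1 → g = 1 := by
  have : Fintype X := Fintype.ofFinite X
  let _ : LinearOrder X := LinearOrder.lift' (Fintype.equivFin X) (Fintype.equivFin X).injective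
  exact fun g hg j hj hgj => Pool.Agent.N496.CV.tf _ H g hg j hj hgj

end Pool.Agent.H6.RB
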