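import Pool.Agent.H6.RB.LOC
import Pool.Agent.H6.RB.FIN2

/-!
# Project RB (helper6), second part: groups which are locally and virtually embedded
-/

set_option autoImplicit false

namespace Pool.Agent.H6.RB

open Pool.Agent.H6.RA Pool.Agent.W907.SG Pool.Agent.W461.SGN Pool.Agent.N496.CV

/-- the property passes to subgroups -/
theorem VE.sub {Γ W' : Type} [Group Γ] [Group W'] (H : VE Γ W') (K : Subgroup Γ) : VE K W' := by
  classical
  intro S
  obtain ⟨F₁, hF₁, e, he⟩ := H (S.image (fun x : K => (x : Γ)))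
  have h1 : ∀ y : Subgroup.closure (S : Set K), ((y : K) : Γ) ∈
      Subgroup.closure ((S.image (fun x : K => (x : Γ)) : Finset Γ) : Set Γ) := by
    have h2 : Subgroup.closure (S : Set K) ≤
        (Subgroup.closure ((S.image (fun x : K => (x : Γ)) : Finset Γ) : Set Γ)).comap K.subtype := by
      rw [Subgroup.closure_le]
      intro s hs
      exact Subgroup.subset_closure (Finset.mem_coe.2 (Finset.mem_image_of_mem _ hs))
    intro y
    exact h2 y.2
  obtain ⟨φ, hφ⟩ : ∃ φ : Subgroup.closure (S : Set K) →*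
      Subgroup.closure ((S.image (fun x : K => (x : Γ)) : Finset Γ) : Set Γ), ∀ y, (φ y : Γ) = ((y : K) : Γ) :=
    ⟨(K.subtype.comp (Subgroup.closure (S : Set K)).subtype).codRestrict _ h1, fun y => rfl⟩
  have hφi : Function.Injective φ := by
    intro x y hxy
    apply Subtype.ext
    apply Subtype.ext
    rw [← hφ, ← hφ, hxy]
  have hfin : (F₁.comap φ).FiniteIndex := by
    refine ⟨?_⟩
    rw [Subgroup.index_comap]
    exact (inferInstance : (F₁.subgroupOf φ.range).FiniteIndex).index_ne_zero
  refine ⟨F₁.comap φ, hfin, e.comp (φ.subgroupComap F₁), ?_⟩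
  refine he.comp ?_
  intro x y hxy
  apply Subtype.ext
  apply hφi
  exact congrArg Subtype.val hxy

/-- a group embedded in `W'` -/
theorem VE.of {Γ W' : Type} [Group Γ] [Group W'] (f : Γ →* W') (hf : Function.Injective f) : VE Γ W' := by
  intro S
  refine ⟨⊤, inferInstance, (f.comp (Subgroup.subtype _)).comp (Subgroup.subtype _), ?_⟩
  exact (hf.comp (Subgroup.subtype_injective _)).comp (Subgroup.subtype_injective _)

theorem ve_od {V : Type} (G : SimpleGraph V) (D : Set V) {K : Type} [Group K] (h : VE K (W (Od G D))) :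
    VE K (W (Oc G)) := by
  obtain ⟨ι, h1, _, _⟩ := embW (Oc G) (SD D)
  exact h.trans ι h1

theorem ve_raag {V : Type} [Fintype V] [LinearOrder V] (G : SimpleGraph V) {K : Type} [Group K]
    (h : VE K (RAAG G)) : VE K (W (Oc G)) := by
  obtain ⟨φ, hφ, _, _⟩ := emb V G
  exact h.trans φ hφ

end Pool.Agent.H6.RB
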