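import Pool.Agent.H6.RB.Defs2

/-!
# Project RB (helper6), second part: the induction
-/

set_option autoImplicit false

noncomputable section

namespace Pool.Agent.H6.RB

open Finset Pool.Agent.W555.KS Pool.Agent.R782.Bal Pool.Agent.H6.RA Pool.Agent.W907.SG Pool.Agent.Y131.KS

theorem Gd.mono {X : Type} [Fintype X] [DecidableEq X] {H : SimpleGraph X} {B B' : Set X} {q : ℕ} {ρ : X → ℕ}
    {Z : Finset X → Finset X → ZMod 2} (h : Gd H B q ρ Z) (hB : B ⊆ B') : Gd H B' q ρ Z where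
  inj := h.inj
  symm := h.symm
  supp σ τ hne := ⟨⟨(h.supp σ τ hne).1.1, (h.supp σ τ hne).1.2.1, (h.supp σ τ hne).1.2.2.trans hB⟩,
    ⟨(h.supp σ τ hne).2.1, (h.supp σ τ hne).2.2.1, (h.supp σ τ hne).2.2.2.trans hB⟩⟩
  cyc := h.cyc
  ev := h.ev

/-- the support -/
def BC {V : Type} (D : Set V) (u : V → V) (C : Set V) : Set (V ×ₗ Bool) :=
  {x | x ∈ SD D ∧ ((ofLex x).1 ∈ C ∨ ∃ a ∈ C, a ∉ D ∧ (ofLex x).1 = u a)}

theorem BC_mono {V : Type} {D : Set V} {u : V → V} {C C' : Set V} (h : C ⊆ C') : BC D u C ⊆ BC D u C' := by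
  rintro x ⟨hx, h1 | ⟨a, ha, ha2, ha3⟩⟩
  · exact ⟨hx, Or.inl (h h1)⟩
  · exact ⟨hx, Or.inr ⟨a, h ha, ha2, ha3⟩⟩

theorem co1_high {V : Type} [Fintype V] [LinearOrder V] {G : SimpleGraph V} {C : Set V} {k : ℕ}
    (h : Fintype.card V < k) : Co1 G C k := by
  intro r _
  refine ⟨0, fun T _ hT => ?_⟩
  have := card_le_univ T
  omega

theorem exists_max {V : Type} [Fintype V] [LinearOrder V] {G : SimpleGraph V} {C : Set V} {k : ℕ}
    (h : ¬ Co1 G C k) : ∃ k', k ≤ k' ∧ ¬ Co1 G C k' ∧ ∀ i, k' < i → Co1 G C i := by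
  classical
  have hk : k ≤ Fintype.card V := by
    by_contra h1
    exact h (co1_high (not_le.1 h1))
  refine ⟨Nat.findGreatest (fun i => ¬ Co1 G C i) (Fintype.card V), Nat.le_findGreatest hk h,
    Nat.findGreatest_spec (P := fun i => ¬ Co1 G C i) hk h, fun i hi => ?_⟩
  by_cases h2 : i ≤ Fintype.card V
  · have := Nat.findGreatest_is_greatest hi h2
    exact not_not.1 this
  · exact co1_high (not_le.1 h2)

theorem ind (hJ : S_JOIN) (hM : S_MV) (hB : S_BASE) {V : Type} [Fintype V] [LinearOrder V] (G : SimpleGraph V)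
    (D : Set V) (u : V → V) (hu : ∀ a, a ∉ D → u a ∈ D ∧ ¬ G.Adj a (u a) ∧ ∀ w, G.Adj a w → G.Adj (u a) w) :
    ∀ (n : ℕ) (C : Set V), C.ncard = n → ∀ k, ¬ Co1 G C k →
      ∃ (k' : ℕ) (ρ : V ×ₗ Bool → ℕ) (Z : Finset (V ×ₗ Bool) → Finset (V ×ₗ Bool) → ZMod 2),
        k ≤ k' ∧ Gd (Oc G) (BC D u C) k' ρ Z := by
  intro n
  induction n using Nat.strong_induction_on with
  | _ n ih =>
  intro C hC k hk
  obtain ⟨m, hkm, hm, hmax⟩ := exists_max hk
  by_cases hCD : C ⊆ D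
  · obtain ⟨ρ, Z, hZ⟩ := hB V G C m hm hmax
    exact ⟨m, ρ, Z, hkm, hZ.mono (fun x hx => ⟨fun _ => hCD hx, Or.inl hx⟩)⟩
  · obtain ⟨a, haC, haD⟩ := Set.not_subset.1 hCD
    obtain ⟨hu1, hu2, hu3⟩ := hu a haD
    rcases Nat.eq_zero_or_pos m with rfl | hpos
    · exfalso
      apply hm
      intro r hr
      refine ⟨0, fun T _ hT => ?_⟩
      rw [card_eq_zero] at hT
      subst hT
      have h1 := hr {a} ⟨by simp, by simpa using haC⟩ (by simp)
      simp only [sum_singleton, erase_singleton] at h1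
      rw [sum_empty, h1]
    · obtain ⟨m', rfl⟩ : ∃ m', m = m' + 1 := ⟨m - 1, by omega⟩
      by_cases h1 : Co1 G (C \ {a}) (m' + 1)
      · have h2 : ¬ Co1 G (C ∩ {v | G.Adj a v}) m' := fun h2 => hm (hM V G C a m' haC h1 h2)
        have hlt : (C ∩ {v | G.Adj a v}).ncard < n := by
          rw [← hC]
          refine Set.ncard_lt_ncard ⟨Set.inter_subset_left, fun h => ?_⟩ (Set.toFinite _)
          exact G.loopless.irrefl a (h haC).2
        obtain ⟨k', ρ, Z, hk', hZ⟩ := ih _ hlt _ rfl m' h2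
        have hne : a ≠ u a := fun e => haD (e ▸ hu1)
        obtain ⟨ρ', Z', hZ'⟩ := hJ (V ×ₗ Bool) (Oc G) (BC D u (C ∩ {v | G.Adj a v})) k' ρ Z
          (toLex (a, false)) (toLex (u a, false)) (toLex (u a, true))
          (fun e => hne (by simpa using congrArg (fun x => (ofLex x).1) e))
          (fun e => by simpa using congrArg (fun x => (ofLex x).2) e)
          (fun e => hne (by simpa using congrArg (fun x => (ofLex x).1) e))
          (by
            rintro b ⟨_, hb⟩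
            have h3 : G.Adj a (ofLex b).1 ∧ G.Adj (u a) (ofLex b).1 := by
              rcases hb with hb | ⟨a', ha', ha'2, hb⟩
              · exact ⟨hb.2, hu3 _ hb.2⟩
              · rw [hb]
                obtain ⟨_, _, h4⟩ := hu a' ha'2
                exact ⟨(h4 a ha'.2.symm).symm, (h4 (u a) (hu3 _ ha'.2).symm).symm⟩
            exact ⟨h3.1, h3.2, h3.2⟩) hZ
        refine ⟨k' + 1, ρ', Z', by omega, hZ'.mono ?_⟩
        rintro x (hx | hx)
        · exact BC_mono Set.inter_subset_left hx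
        · rcases hx with rfl | rfl | rfl
          · exact ⟨fun h => by simp at h, Or.inl haC⟩
          · exact ⟨fun _ => hu1, Or.inr ⟨a, haC, haD, rfl⟩⟩
          · exact ⟨fun _ => hu1, Or.inr ⟨a, haC, haD, rfl⟩⟩
      · have hlt : (C \ {a}).ncard < n := by
          rw [← hC]
          exact Set.ncard_diff_singleton_lt_of_mem haC (Set.toFinite _)
        obtain ⟨k', ρ, Z, hk', hZ⟩ := ih _ hlt _ rfl (m' + 1) h1
        exact ⟨k', ρ, Z, by omega, hZ.mono (BC_mono Set.diff_subset)⟩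

theorem co_van2 (hT : S_TRN) (hJ : S_JOIN) (hM : S_MV) (hB : S_BASE) {V : Type} [Fintype V] [LinearOrder V]
    (G : SimpleGraph V) (D : Set V) (hD : Dominating G D) (d : ℕ)
    (hO : ∀ D', 2 * (d + 1) ≤ D' → ∀ (n : ℕ) (e : ↥(SD D) ≃ Fin n), VK2 (clF (Od G D) e) D') :
    ∀ (C : Set V) (i : ℕ), d ≤ i → Co G C i := by
  classical
  intro C i hi
  by_contra h
  have h1 : ∀ a : V, ∃ w : V, a ∉ D → w ∈ D ∧ ¬ G.Adj a w ∧ ∀ w', G.Adj a w' → G.Adj w w' := by
    intro a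
    by_cases ha : a ∈ D
    · exact ⟨a, fun h => absurd ha h⟩
    · obtain ⟨w, hw⟩ := hD a ha
      exact ⟨w, fun _ => hw⟩
  choose u hu using h1
  obtain ⟨k', ρ, Z, hk', hZ⟩ := ind hJ hM hB G D u hu C.ncard C rfl (i + 1) h
  exact hT (V ×ₗ Bool) (Oc G) (SD D) k' ρ Z (fun n e => hO _ (by omega) n e) (hZ.mono (fun x hx => hx.1))

end Pool.Agent.H6.RB
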