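import Pool.Agent.H6.RB.Defs2

set_option autoImplicit false
set_option linter.unusedSectionVars false

noncomputable section

namespace Pool.Agent.H6.RB

open Finset

namespace JOINaux

lemma inter_union_sdiff' {X : Type} [DecidableEq X] (s t : Finset X) : s ∩ t ∪ s \ t = s := by
  rw [union_comm, sdiff_union_inter]

variable {X : Type} [Fintype X] [DecidableEq X]

/-- the condition: one element of the triple in each, different -/
def Cd (t σ τ : Finset X) : Prop := (σ ∩ t).card = 1 ∧ (τ ∩ t).card = 1 ∧ σ ∩ t ≠ τ ∩ t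

open Classical in
def Zt (t : Finset X) (Z : Finset X → Finset X → ZMod 2) (σ τ : Finset X) : ZMod 2 :=
  if Cd t σ τ then Z (σ \ t) (τ \ t) else 0

lemma cd_symm {t σ τ : Finset X} : Cd t σ τ ↔ Cd t τ σ := by
  unfold Cd
  constructor
  · rintro ⟨h1, h2, h3⟩; exact ⟨h2, h1, h3.symm⟩
  · rintro ⟨h1, h2, h3⟩; exact ⟨h2, h1, h3.symm⟩

lemma zt_pos {t : Finset X} {Z : Finset X → Finset X → ZMod 2} {σ τ : Finset X} (h : Cd t σ τ) :
    Zt t Z σ τ = Z (σ \ t) (τ \ t) := if_pos h

lemma zt_neg {t : Finset X} {Z : Finset X → Finset X → ZMod 2} {σ τ : Finset X} (h : ¬ Cd t σ τ) :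
    Zt t Z σ τ = 0 := if_neg h

variable {H : SimpleGraph X} {B : Set X} {q : ℕ} {ρ : X → ℕ} {Z : Finset X → Finset X → ZMod 2}
  {t : Finset X}

lemma supp_one (htB : ∀ w ∈ t, ∀ b ∈ B, H.Adj w b) {σ : Finset X} (h1 : (σ ∩ t).card = 1)
    (h2 : H.IsClique ((σ \ t : Finset X) : Set X)) (h3 : (σ \ t).card = q)
    (h4 : ((σ \ t : Finset X) : Set X) ⊆ B) :
    H.IsClique (σ : Set X) ∧ σ.card = q + 1 ∧ (σ : Set X) ⊆ B ∪ (t : Set X) := by
  refine ⟨?_, ?_, ?_⟩
  · intro u hu v hv huv
    rw [mem_coe] at hu hv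
    by_cases h5 : u ∈ t
    · by_cases h6 : v ∈ t
      · exfalso
        obtain ⟨c, hc⟩ := card_eq_one.1 h1
        have e1 : u ∈ σ ∩ t := mem_inter.2 ⟨hu, h5⟩
        have e2 : v ∈ σ ∩ t := mem_inter.2 ⟨hv, h6⟩
        rw [hc, mem_singleton] at e1 e2
        exact huv (e1.trans e2.symm)
      · exact htB u h5 v (h4 (mem_coe.2 (mem_sdiff.2 ⟨hv, h6⟩)))
    · by_cases h6 : v ∈ t
      · exact (htB v h6 u (h4 (mem_coe.2 (mem_sdiff.2 ⟨hu, h5⟩)))).symm
      · exact h2 (mem_coe.2 (mem_sdiff.2 ⟨hu, h5⟩)) (mem_coe.2 (mem_sdiff.2 ⟨hv, h6⟩)) huv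
  · have := card_inter_add_card_sdiff σ t
    omega
  · intro u hu
    rw [mem_coe] at hu
    by_cases h5 : u ∈ t
    · exact Or.inr (mem_coe.2 h5)
    · exact Or.inl (h4 (mem_coe.2 (mem_sdiff.2 ⟨hu, h5⟩)))

lemma cyc_aux (hG : Gd H B q ρ Z) (ht3 : t.card = 3) (htB' : ∀ w ∈ t, w ∉ B) (σ τ : Finset X)
    (hd : Disjoint σ τ) : ∑ w ∈ (σ ∪ τ)ᶜ, Zt t Z (insert w σ) τ = 0 := by
  by_cases hτ : (τ ∩ t).card = 1
  swap
  · exact sum_eq_zero fun w _ => zt_neg fun h => hτ h.2.1
  obtain ⟨b, hb⟩ := card_eq_one.1 hτ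
  have hbt : b ∈ t := (mem_inter.1 (hb ▸ mem_singleton_self b : b ∈ τ ∩ t)).2
  have hbτ : b ∈ τ := (mem_inter.1 (hb ▸ mem_singleton_self b : b ∈ τ ∩ t)).1
  rcases Nat.lt_trichotomy (σ ∩ t).card 1 with h0 | h0 | h0
  · -- empty
    have h1 : σ ∩ t = ∅ := card_eq_zero.1 (by omega)
    have h2 : ∀ w ∈ (σ ∪ τ)ᶜ, Zt t Z (insert w σ) τ = if w ∈ t then Z (σ \ t) (τ \ t) else 0 := by
      intro w hw
      rw [mem_compl, mem_union, not_or] at hw
      split_ifs with hwt
      · have e1 : insert w σ ∩ t = {w} := by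
          rw [insert_inter_of_mem hwt, h1]
          rfl
        rw [zt_pos, insert_sdiff_of_mem _ hwt]
        refine ⟨by rw [e1, card_singleton], hτ, ?_⟩
        rw [e1, hb]
        intro h
        rw [singleton_inj] at h
        exact hw.2 (h ▸ hbτ)
      · refine zt_neg fun h => ?_
        have := h.1
        rw [insert_inter_of_notMem hwt, h1] at this
        simp at this
    rw [sum_congr rfl h2, ← sum_filter, sum_const]
    have h3 : ((σ ∪ τ)ᶜ.filter (· ∈ t)) = t.erase b := by
      ext w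
      rw [mem_filter, mem_compl, mem_union, not_or, mem_erase]
      constructor
      · rintro ⟨⟨h4, h5⟩, h6⟩
        refine ⟨fun h => h5 (h ▸ hbτ), h6⟩
      · rintro ⟨h4, h5⟩
        refine ⟨⟨fun h => ?_, fun h => ?_⟩, h5⟩
        · have : w ∈ σ ∩ t := mem_inter.2 ⟨h, h5⟩
          rw [h1] at this
          simp at this
        · have : w ∈ τ ∩ t := mem_inter.2 ⟨h, h5⟩
          rw [hb, mem_singleton] at this
          exact h4 this
    rw [h3, card_erase_of_mem hbt, ht3]
    have : (2 : ZMod 2) = 0 := rfl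
    rw [nsmul_eq_mul]
    norm_num
    left
    exact this
  · -- one element
    have h1 := hG.cyc (σ \ t) (τ \ t) (disjoint_of_subset_left sdiff_subset
      (disjoint_of_subset_right sdiff_subset hd))
    obtain ⟨a, ha⟩ := card_eq_one.1 h0
    have hne : σ ∩ t ≠ τ ∩ t := by
      rw [ha, hb]
      intro h
      rw [singleton_inj] at h
      have haσ : a ∈ σ := (mem_inter.1 (ha ▸ mem_singleton_self a : a ∈ σ ∩ t)).1
      exact (disjoint_left.1 hd) haσ (h ▸ hbτ)
    have h2 : ∀ w ∈ (σ ∪ τ)ᶜ, Zt t Z (insert w σ) τ =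
        if w ∉ t then Z (insert w (σ \ t)) (τ \ t) else 0 := by
      intro w hw
      rw [mem_compl, mem_union, not_or] at hw
      by_cases hwt : w ∈ t
      · rw [if_neg (not_not.2 hwt)]
        refine zt_neg fun h => ?_
        have := h.1
        rw [insert_inter_of_mem hwt, card_insert_of_notMem, h0] at this
        · omega
        · exact fun h' => hw.1 (mem_inter.1 h').1
      · have e1 : insert w σ ∩ t = σ ∩ t := insert_inter_of_notMem hwt
        rw [if_pos hwt, zt_pos, insert_sdiff_of_notMem _ hwt]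
        exact ⟨by rw [e1]; exact h0, hτ, by rw [e1]; exact hne⟩
    rw [sum_congr rfl h2, ← sum_filter, ← h1]
    refine sum_subset ?_ ?_
    · intro w hw
      rw [mem_filter, mem_compl, mem_union, not_or] at hw
      rw [mem_compl, mem_union, not_or, mem_sdiff, mem_sdiff]
      exact ⟨fun h => hw.1.1 h.1, fun h => hw.1.2 h.1⟩
    · intro w hw hw'
      by_contra hne'
      have h3 := (hG.supp _ _ hne').1.2.2
      have h4 : w ∈ B := h3 (by simp)
      rw [mem_compl, mem_union, not_or, mem_sdiff, mem_sdiff] at hw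
      apply hw'
      rw [mem_filter, mem_compl, mem_union, not_or]
      have hwt : w ∉ t := fun h => htB' w h h4
      exact ⟨⟨fun h => hw.1 ⟨h, hwt⟩, fun h => hw.2 ⟨h, hwt⟩⟩, hwt⟩
  · -- at least two
    refine sum_eq_zero fun w _ => zt_neg fun h => ?_
    have h1 : (σ ∩ t).card ≤ (insert w σ ∩ t).card :=
      card_le_card (inter_subset_inter_right (subset_insert _ _))
    have h2 := h.1
    omega

lemma rank (ρ' : X → ℕ) (h3 : ∀ w ∈ t, ρ' w < 3) (h4 : ∀ w, w ∉ t → ρ' w = ρ w + 3)
    {P V : Finset X} (hP : P ⊆ t) (hV : V ⊆ tᶜ) (hP2 : P.card = 2) {u : X} (hu : u ∈ V) :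
    ((P ∪ V).filter (fun w => ρ' w < ρ' u)).card = 2 + (V.filter (fun w => ρ w < ρ u)).card := by
  have hut : u ∉ t := mem_compl.1 (hV hu)
  have e1 : (P ∪ V).filter (fun w => ρ' w < ρ' u) = P ∪ V.filter (fun w => ρ w < ρ u) := by
    rw [filter_union]
    congr 1
    · refine filter_true_of_mem fun w hw => ?_
      rw [h4 u hut]
      have := h3 w (hP hw)
      omega
    · refine filter_congr fun w hw => ?_
      rw [h4 u hut, h4 w (mem_compl.1 (hV hw))]
      omega
  rw [e1, card_union_of_disjoint, hP2]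
  exact disjoint_of_subset_left hP (disjoint_of_subset_right ((filter_subset _ _).trans hV)
    disjoint_compl_right)

lemma ev_od (ρ' : X → ℕ) (h3 : ∀ w ∈ t, ρ' w < 3) (h4 : ∀ w, w ∉ t → ρ' w = ρ w + 3)
    {a b : X} {V : Finset X} (ha : a ∈ t) (hb : b ∈ t) (hab : ρ' a < ρ' b) (hV : V ⊆ tᶜ) :
    evR ρ' ({a, b} ∪ V) = insert a (evR ρ V) ∧ odR ρ' ({a, b} ∪ V) = insert b (odR ρ V) := by
  have hne : a ≠ b := fun h => by rw [h] at hab; exact lt_irrefl _ hab
  have hP : ({a, b} : Finset X) ⊆ t := by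
    intro w hw
    rw [mem_insert, mem_singleton] at hw
    rcases hw with rfl | rfl
    · exact ha
    · exact hb
  have hP2 : ({a, b} : Finset X).card = 2 := card_pair hne
  have hVt : ∀ w ∈ V, w ∉ t := fun w hw => mem_compl.1 (hV hw)
  have ra : (({a, b} ∪ V).filter (fun w => ρ' w < ρ' a)).card = 0 := by
    rw [card_eq_zero, filter_eq_empty_iff]
    intro w hw
    rw [mem_union, mem_insert, mem_singleton] at hw
    rcases hw with (rfl | rfl) | hw
    · exact lt_irrefl _
    · omega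
    · rw [h4 w (hVt w hw)]
      have := h3 a ha
      omega
  have rb : (({a, b} ∪ V).filter (fun w => ρ' w < ρ' b)).card = 1 := by
    rw [card_eq_one]
    refine ⟨a, ?_⟩
    ext w
    rw [mem_filter, mem_union, mem_insert, mem_singleton, mem_singleton]
    constructor
    · rintro ⟨(h | h) | h, h'⟩
      · exact h
      · rw [h] at h'; exact absurd h' (lt_irrefl _)
      · exfalso
        rw [h4 w (hVt w h)] at h'
        have := h3 b hb
        omega
    · rintro rfl
      exact ⟨Or.inl (Or.inl rfl), hab⟩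
  have haV : a ∉ V := fun h => hVt a h ha
  have hbV : b ∉ V := fun h => hVt b h hb
  constructor
  · ext u
    unfold evR
    rw [mem_filter, mem_union, mem_insert, mem_singleton, mem_insert, mem_filter]
    constructor
    · rintro ⟨(h | h) | h, h'⟩
      · exact Or.inl h
      · rw [h, rb] at h'
        exact absurd h' (by decide)
      · rw [rank ρ' h3 h4 hP hV hP2 h] at h'
        exact Or.inr ⟨h, by rwa [Nat.even_add, iff_true_left (by decide : Even 2)] at h'⟩
    · rintro (rfl | ⟨h, h'⟩)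
      · exact ⟨Or.inl (Or.inl rfl), by rw [ra]; decide⟩
      · refine ⟨Or.inr h, ?_⟩
        rw [rank ρ' h3 h4 hP hV hP2 h, Nat.even_add, iff_true_left (by decide : Even 2)]
        exact h'
  · ext u
    unfold odR
    rw [mem_filter, mem_union, mem_insert, mem_singleton, mem_insert, mem_filter]
    constructor
    · rintro ⟨(h | h) | h, h'⟩
      · rw [h, ra] at h'
        exact absurd (by decide : Even 0) h'
      · exact Or.inl h
      · rw [rank ρ' h3 h4 hP hV hP2 h, Nat.even_add, iff_true_left (by decide : Even 2)] at h'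
        exact Or.inr ⟨h, h'⟩
    · rintro (rfl | ⟨h, h'⟩)
      · exact ⟨Or.inl (Or.inr rfl), by rw [rb]; decide⟩
      · refine ⟨Or.inr h, ?_⟩
        rw [rank ρ' h3 h4 hP hV hP2 h, Nat.even_add, iff_true_left (by decide : Even 2)]
        exact h'

lemma zt_val (ρ' : X → ℕ) (h3 : ∀ w ∈ t, ρ' w < 3) (h4 : ∀ w, w ∉ t → ρ' w = ρ w + 3)
    {a b : X} {V : Finset X} (ha : a ∈ t) (hb : b ∈ t) (hab : ρ' a < ρ' b) (hV : V ⊆ tᶜ) :
    Zt t Z (evR ρ' ({a, b} ∪ V)) (odR ρ' ({a, b} ∪ V)) = Z (evR ρ V) (odR ρ V) := by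
  obtain ⟨e1, e2⟩ := ev_od (ρ := ρ) ρ' h3 h4 ha hb hab hV
  have hne : a ≠ b := fun h => by rw [h] at hab; exact lt_irrefl _ hab
  have hev : evR ρ V ⊆ tᶜ := (filter_subset _ _).trans hV
  have hod : odR ρ V ⊆ tᶜ := (filter_subset _ _).trans hV
  have k1 : evR ρ V ∩ t = ∅ := disjoint_iff_inter_eq_empty.1
    (disjoint_of_subset_left hev disjoint_compl_left)
  have k2 : odR ρ V ∩ t = ∅ := disjoint_iff_inter_eq_empty.1
    (disjoint_of_subset_left hod disjoint_compl_left)
  have m1 : insert a (evR ρ V) ∩ t = {a} := by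
    rw [insert_inter_of_mem ha, k1]; rfl
  have m2 : insert b (odR ρ V) ∩ t = {b} := by
    rw [insert_inter_of_mem hb, k2]; rfl
  have n1 : insert a (evR ρ V) \ t = evR ρ V := by
    rw [insert_sdiff_of_mem _ ha]
    exact sdiff_eq_self_of_disjoint (disjoint_of_subset_left hev disjoint_compl_left)
  have n2 : insert b (odR ρ V) \ t = odR ρ V := by
    rw [insert_sdiff_of_mem _ hb]
    exact sdiff_eq_self_of_disjoint (disjoint_of_subset_left hod disjoint_compl_left)
  rw [e1, e2, zt_pos, n1, n2]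
  refine ⟨by rw [m1, card_singleton], by rw [m2, card_singleton], ?_⟩
  rw [m1, m2]
  intro h
  exact hne (singleton_inj.1 h)

lemma ev_aux (hG : Gd H B q ρ Z) (ht3 : t.card = 3) (htB' : ∀ w ∈ t, w ∉ B)
    (ρ' : X → ℕ) (hinj : Function.Injective ρ') (h3 : ∀ w ∈ t, ρ' w < 3)
    (h4 : ∀ w, w ∉ t → ρ' w = ρ w + 3) :
    ∑ U ∈ powersetCard (2 * (q + 1)) (univ : Finset X), Zt t Z (evR ρ' U) (odR ρ' U) ≠ 0 := by
  have key : ∑ U ∈ powersetCard (2 * (q + 1)) (univ : Finset X), Zt t Z (evR ρ' U) (odR ρ' U) =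
      ∑ U ∈ powersetCard (2 * q) (univ : Finset X), Z (evR ρ U) (odR ρ U) := by
    have s1 : ∑ U ∈ powersetCard (2 * (q + 1)) (univ : Finset X), Zt t Z (evR ρ' U) (odR ρ' U) =
        ∑ U ∈ (powersetCard (2 * (q + 1)) (univ : Finset X)).filter (fun U => (U ∩ t).card = 2),
          Zt t Z (evR ρ' U) (odR ρ' U) := by
      symm
      refine sum_filter_of_ne fun U _ hne => ?_
      have hc : Cd t (evR ρ' U) (odR ρ' U) := by
        by_contra hc
        exact hne (zt_neg hc)
      have e1 : U ∩ t = (evR ρ' U ∩ t) ∪ (odR ρ' U ∩ t) := by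
        rw [← union_inter_distrib_right]
        congr 1
        unfold evR odR
        rw [filter_union_filter_not_eq]
      have e2 : Disjoint (evR ρ' U ∩ t) (odR ρ' U ∩ t) := by
        refine disjoint_of_subset_left inter_subset_left (disjoint_of_subset_right inter_subset_left ?_)
        unfold evR odR
        exact disjoint_filter_filter_not _ _ _
      rw [e1, card_union_of_disjoint e2, hc.1, hc.2.1]
    have s2 : ∑ U ∈ (powersetCard (2 * (q + 1)) (univ : Finset X)).filter (fun U => (U ∩ t).card = 2),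
          Zt t Z (evR ρ' U) (odR ρ' U) =
        ∑ p ∈ (powersetCard 2 t) ×ˢ (powersetCard (2 * q) tᶜ), Z (evR ρ p.2) (odR ρ p.2) := by
      refine sum_nbij' (fun U => (U ∩ t, U \ t)) (fun p => p.1 ∪ p.2) ?_ ?_ ?_ ?_ ?_
      · intro U hU
        rw [mem_filter, mem_powersetCard] at hU
        rw [mem_product, mem_powersetCard, mem_powersetCard]
        have := card_inter_add_card_sdiff U t
        refine ⟨⟨inter_subset_right, hU.2⟩, ?_, ?_⟩
        · intro w hw
          exact mem_compl.2 (mem_sdiff.1 hw).2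
        · show (U \ t).card = 2 * q
          omega
      · rintro ⟨P, V⟩ hp
        rw [mem_product, mem_powersetCard, mem_powersetCard] at hp
        obtain ⟨⟨hP, hP2⟩, hV, hV2⟩ := hp
        have hd : Disjoint P V := disjoint_of_subset_left hP
          (disjoint_of_subset_right hV disjoint_compl_right)
        rw [mem_filter, mem_powersetCard]
        simp only
        simp only at hP hP2 hV hV2
        refine ⟨⟨subset_univ _, by rw [card_union_of_disjoint hd]; omega⟩, ?_⟩
        rw [union_inter_distrib_right, inter_eq_left.2 hP, disjoint_iff_inter_eq_empty.1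
          (disjoint_of_subset_left hV disjoint_compl_left), union_empty]
        exact hP2
      · intro U _
        exact inter_union_sdiff' U t
      · rintro ⟨P, V⟩ hp
        rw [mem_product, mem_powersetCard, mem_powersetCard] at hp
        obtain ⟨⟨hP, hP2⟩, hV, hV2⟩ := hp
        simp only at hP hP2 hV hV2
        have hVt : Disjoint V t := disjoint_of_subset_left hV disjoint_compl_left
        ext1
        · simp only
          rw [union_inter_distrib_right, inter_eq_left.2 hP, disjoint_iff_inter_eq_empty.1 hVt,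
            union_empty]
        · simp only
          rw [union_sdiff_distrib, sdiff_eq_empty_iff_subset.2 hP, empty_union,
            sdiff_eq_self_of_disjoint hVt]
      · intro U hU
        rw [mem_filter, mem_powersetCard] at hU
        obtain ⟨a, b, hab, hU2⟩ := card_eq_two.1 hU.2
        have ha : a ∈ t := (mem_inter.1 (hU2 ▸ mem_insert_self a {b} : a ∈ U ∩ t)).2
        have hb : b ∈ t := (mem_inter.1 (hU2 ▸ mem_insert_of_mem (mem_singleton_self b) : b ∈ U ∩ t)).2
        have hV : U \ t ⊆ tᶜ := fun w hw => mem_compl.2 (mem_sdiff.1 hw).2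
        simp only
        rcases lt_or_gt_of_ne (fun h => hab (hinj h) : ρ' a ≠ ρ' b) with h | h
        · have := zt_val (Z := Z) (ρ := ρ) ρ' h3 h4 ha hb h hV
          rwa [← hU2, inter_union_sdiff'] at this
        · have := zt_val (Z := Z) (ρ := ρ) ρ' h3 h4 hb ha h hV
          rwa [pair_comm, ← hU2, inter_union_sdiff'] at this
    have s3 : ∑ U ∈ powersetCard (2 * q) (univ : Finset X), Z (evR ρ U) (odR ρ U) =
        ∑ U ∈ powersetCard (2 * q) tᶜ, Z (evR ρ U) (odR ρ U) := by
      symm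
      refine sum_subset (powersetCard_mono (subset_univ _)) fun U hU hU' => ?_
      by_contra hne
      obtain ⟨⟨-, -, k1⟩, -, -, k2⟩ := hG.supp _ _ hne
      apply hU'
      rw [mem_powersetCard] at hU ⊢
      refine ⟨fun w hw => mem_compl.2 fun hwt => htB' w hwt ?_, hU.2⟩
      by_cases h : Even (U.filter (fun v => ρ v < ρ w)).card
      · exact k1 (mem_coe.2 (mem_filter.2 ⟨hw, h⟩))
      · exact k2 (mem_coe.2 (mem_filter.2 ⟨hw, h⟩))
    rw [s1, s2, s3, sum_product]
    simp only [sum_const, card_powersetCard, ht3]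
    have h5 : Nat.choose 3 2 = 3 := by decide
    rw [h5, nsmul_eq_mul]
    have : ((3 : ℕ) : ZMod 2) = 1 := rfl
    rw [this, one_mul]
  rw [key]
  exact hG.ev

end JOINaux

open JOINaux

theorem join : S_JOIN := by
  intro X _ _ H B q ρ Z x y z hxy hyz hxz hadj hG
  obtain ⟨t, ht⟩ : ∃ t : Finset X, t = {x, y, z} := ⟨_, rfl⟩
  have ht3 : t.card = 3 := by
    rw [ht]
    exact card_eq_three.2 ⟨x, y, z, hxy, hxz, hyz, rfl⟩
  have htc : ((t : Finset X) : Set X) = {x, y, z} := by
    rw [ht]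
    push_cast
    rfl
  have hm : ∀ w, w ∈ t ↔ w = x ∨ w = y ∨ w = z := by
    intro w
    rw [ht]
    simp
  have htB : ∀ w ∈ t, ∀ b ∈ B, H.Adj w b := by
    intro w hw b hb
    rcases (hm w).1 hw with rfl | rfl | rfl
    · exact (hadj b hb).1
    · exact (hadj b hb).2.1
    · exact (hadj b hb).2.2
  have htB' : ∀ w ∈ t, w ∉ B := fun w hw hwB => H.irrefl (htB w hw w hwB)
  obtain ⟨ρ', hρ'⟩ : ∃ ρ' : X → ℕ, ρ' = fun w => if w = x then 0 else if w = y then 1 else
    if w = z then 2 else ρ w + 3 := ⟨_, rfl⟩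
  have rx : ρ' x = 0 := by rw [hρ']; simp
  have ry : ρ' y = 1 := by rw [hρ']; simp [hxy.symm]
  have rz : ρ' z = 2 := by rw [hρ']; simp [hxz.symm, hyz.symm]
  have h4 : ∀ w, w ∉ t → ρ' w = ρ w + 3 := by
    intro w hw
    rw [hm, not_or, not_or] at hw
    rw [hρ']
    simp [hw.1, hw.2.1, hw.2.2]
  have h3 : ∀ w ∈ t, ρ' w < 3 := by
    intro w hw
    rcases (hm w).1 hw with rfl | rfl | rfl <;> omega
  have hinj : Function.Injective ρ' := by
    intro u v huv
    by_cases hu : u ∈ t
    · by_cases hv : v ∈ t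
      · rcases (hm u).1 hu with rfl | rfl | rfl <;> rcases (hm v).1 hv with rfl | rfl | rfl <;>
          first | rfl | (exfalso; omega)
      · exfalso
        have := h3 u hu
        rw [huv, h4 v hv] at this
        omega
    · by_cases hv : v ∈ t
      · exfalso
        have := h3 v hv
        rw [← huv, h4 u hu] at this
        omega
      · rw [h4 u hu, h4 v hv] at huv
        exact hG.inj (by omega)
  refine ⟨ρ', Zt t Z, hinj, ?_, ?_, cyc_aux hG ht3 htB', ev_aux hG ht3 htB' ρ' hinj h3 h4⟩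
  · intro σ τ
    by_cases h : Cd t σ τ
    · rw [zt_pos h, zt_pos (cd_symm.1 h), hG.symm]
    · rw [zt_neg h, zt_neg (fun h' => h (cd_symm.1 h'))]
  · intro σ τ hne
    have hc : Cd t σ τ := by
      by_contra hc
      exact hne (zt_neg hc)
    rw [zt_pos hc] at hne
    obtain ⟨⟨a1, a2, a3⟩, b1, b2, b3⟩ := hG.supp _ _ hne
    rw [← htc]
    exact ⟨supp_one htB hc.1 a1 a2 a3, supp_one htB hc.2.1 b1 b2 b3⟩

end Pool.Agent.H6.RB
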