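import Pool.Agent.H6.RB.Defs

/-!
# Project RB: part LA
-/

set_option autoImplicit false

namespace Pool.Agent.H6.RB

open Finset

theorem la : S_LA := by
  intro K m n _ _ _ _ g a ha
  have h1 : a ∉ LinearMap.range g := by
    rintro ⟨b, hb⟩
    exact ha ⟨b, hb⟩
  obtain ⟨φ, hφ, hle⟩ := Submodule.exists_le_ker_of_notMem h1
  have key : ∀ x : m → K, ∑ i, φ (Pi.single i 1) * x i = φ x := by
    intro x
    have e1 : x = ∑ i, x i • (Pi.single i 1 : m → K) := by
      funext j
      rw [Finset.sum_apply]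
      simp [Pi.single_apply]
    conv_rhs => rw [e1]
    rw [map_sum]
    refine Finset.sum_congr rfl fun i _ => ?_
    rw [map_smul, smul_eq_mul, mul_comm]
  refine ⟨fun i => φ (Pi.single i 1), fun b => ?_, ?_⟩
  · rw [key]
    exact hle ⟨b, rfl⟩
  · rw [key]
    exact hφ

end Pool.Agent.H6.RB
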