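import Pool.Agent.H15.CCF.M2
import Pool.Agent.H6.RA.FIN2

/-!
# Project RB (helper6): groups which are locally and virtually embedded in `W (Oc G)`
-/

set_option autoImplicit false
set_option linter.unusedSectionVars false

noncomputable section

namespace Pool.Agent.H6.RB

open CategoryTheory Pool.Agent.W907.SG Pool.Agent.W461.SGN Pool.Agent.N496.CV Pool.Agent.N496.LT V7N
open Pool.Agent.Helper655.VN Pool.Agent.RK Pool.Agent.H6.RA Pool.Agent.H15.CC

/-- Every finitely generated subgroup of `Γ` has a subgroup of finite index which is isomorphic to a subgroup of `W'`. -/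
def VE (Γ W' : Type) [Group Γ] [Group W'] : Prop :=
  ∀ S : Finset Γ, ∃ F : Subgroup (Subgroup.closure (S : Set Γ)), F.FiniteIndex ∧
    ∃ e : F →* W', Function.Injective e

theorem VE.trans {Γ W' W'' : Type} [Group Γ] [Group W'] [Group W''] (h : VE Γ W') (f : W' →* W'')
    (hf : Function.Injective f) : VE Γ W'' := by
  intro S
  obtain ⟨F, hF, e, he⟩ := h S
  exact ⟨F, hF, f.comp e, hf.comp he⟩

theorem hpO {V : Type} [Fintype V] [LinearOrder V] (G : SimpleGraph V) (K : Subgroup (W (Oc G)))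
    (hK : ∀ k ∈ K, ∀ n : ℕ, 0 < n → k ^ n = 1 → k = 1) (n : ℕ)
    (hAc : ∀ τ : Finset V, G.IsClique (τ : Set V) → Ac G (lkS G τ) (n + 1)) {Kb : Type} [Group Kb] (j : K →* Kb)
    (hj : Function.Injective j) : HP ((canL : Kb →* NG Kb).comp j) n Nz := by
  refine hp_of_hv K hK n j hj fun U _ ι u hloc hu hRg => ?_
  have hN : ∀ n : ℕ, 0 < n → IsUnit (n : U) := by
    intro m hm
    have h1 : IsUnit ((algebraMap ℂ (NG Kb)) (m : ℂ)) :=
      (isUnit_iff_ne_zero.2 (Nat.cast_ne_zero.2 hm.ne' : (m : ℂ) ≠ 0)).map (algebraMap ℂ (NG Kb))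
    rw [map_natCast] at h1
    have h3 := h1.map ι
    rwa [map_natCast] at h3
  have h1 := ind2 G U K u (n + 1) hN hRg (fun τ hτ _ => hAc τ hτ) _ ∅ (by simp) le_rfl (by
    rw [Finset.coe_empty, YT_empty, ET_empty]
    exact good_univ K _) _ ∅ le_rfl
  rw [Finset.coe_empty, YT_empty, ET_empty, lkS_empty] at h1
  intro c hc hc0
  have hc' : ChZ K u Set.univ ⊥ Set.univ ∅ (n + 1) c :=
    ⟨fun T hT => hc.supp T fun hT' => hT ⟨hT'.1, fun x _ => ⟨trivial, fun h => absurd h (Set.notMem_empty _)⟩,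
      hT'.2.2⟩, hc.mem, fun T t ht _ w => hc.anti T t ht w⟩
  obtain ⟨e, he, he0⟩ := h1 c hc' hc0
  exact ⟨e, ⟨fun T hT => he.supp T fun hT' => hT ⟨hT'.1, Set.subset_univ _, hT'.2.2⟩, he.mem, fun T t ht w =>
      he.anti T t ht (Set.notMem_empty _) w⟩, he0⟩

theorem betti_o {V : Type} [Fintype V] [LinearOrder V] (G : SimpleGraph V) (n : ℕ)
    (hAc : ∀ τ : Finset V, G.IsClique (τ : Set V) → Ac G (lkS G τ) (n + 1)) (Γ : Type) [Group Γ]
    (H : VE Γ (W (Oc G))) : VN831.l2Betti Γ (n + 1) = 0 := by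
  classical
  show VN831.luckDim Γ (VN831.homN Γ (n + 1)) = 0
  refine FinAux.luck_zero ?_
  have key : HP (canL : Γ →* NG Γ) n Nz := by
    refine hp_colim canL n Nz fun S => ?_
    have h0 : ∃ F : Subgroup Γ, (S : Set Γ) ⊆ F ∧ ∃ F₁ : Subgroup F, F₁.FiniteIndex ∧
        ∃ (e : F₁ →* W (Oc G)), Function.Injective e :=
      ⟨Subgroup.closure (S : Set Γ), Subgroup.subset_closure, H S⟩
    obtain ⟨F, hF, F₁, hF₁, e, hei⟩ := h0
    refine ⟨F, hF, ?_⟩
    obtain ⟨K', hK'⟩ : ∃ K' : Subgroup (W (Oc G)), K' = e.range ⊓ (th (Oc G)).ker := ⟨_, rfl⟩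
    have hK'r : ∀ x : K', (x : W (Oc G)) ∈ e.range := fun x => by
      have h8 : ∀ y, y ∈ K' → y ∈ e.range := fun y hy => by
        rw [hK'] at hy
        exact hy.1
      exact h8 _ x.2
    have hK't : ∀ k ∈ K', ∀ n : ℕ, 0 < n → k ^ n = 1 → k = 1 := fun k hk n hn h => by
      rw [hK'] at hk
      exact Pool.Agent.N496.CV.tf _ (Oc G) k hk.2 n hn h
    obtain ⟨i, hi⟩ : ∃ i : K' →* F₁, ∀ x : K', e (i x) = x := by
      refine ⟨((MonoidHom.ofInjective hei).symm.toMonoidHom).comp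
        (K'.subtype.codRestrict e.range hK'r), fun x => ?_⟩
      have h3 := MulEquiv.apply_symm_apply (MonoidHom.ofInjective hei) ⟨_, hK'r x⟩
      exact congrArg Subtype.val h3
    have hii : Function.Injective i := by
      intro x x' h
      apply Subtype.ext
      rw [← hi, ← hi, h]
    have hfi : i.range.FiniteIndex := by
      have h3 : ((th (Oc G)).comp e).ker ≤ i.range := by
        intro y hy
        have h4 : e y ∈ K' := by
          rw [hK']
          exact ⟨⟨y, rfl⟩, hy⟩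
        refine ⟨⟨e y, h4⟩, ?_⟩
        apply hei
        rw [hi]
      have h5 : ((th (Oc G)).comp e).ker.FiniteIndex := inferInstance
      exact Subgroup.finiteIndex_of_le h3
    obtain ⟨i', hi'⟩ : ∃ i' : K' →* F, i' = (F₁.subtype).comp i := ⟨_, rfl⟩
    have hii' : Function.Injective i' := by
      rw [hi']
      exact (Subgroup.subtype_injective F₁).comp hii
    have hfi' : i'.range.FiniteIndex := by
      have h3 : i'.range = i.range.map F₁.subtype := by
        rw [hi', MonoidHom.range_comp]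
      rw [h3]
      refine ⟨?_⟩
      rw [Subgroup.index_map_subtype]
      exact mul_ne_zero hfi.index_ne_zero hF₁.index_ne_zero
    have hHP := hpO G K' hK't n hAc ((F.subtype).comp i') ((Subgroup.subtype_injective F).comp hii')
    obtain ⟨m, hm, hres⟩ := hp_transfer i' hii' ((canL : Γ →* NG Γ).comp F.subtype) hfi' n Nz hHP
    intro x
    obtain ⟨s, ⟨s₀, hs₀, rfl⟩, hs⟩ := hres x
    refine ⟨s₀ * (m : NG Γ), Pool.Agent.RK.Nz.nz_mul _ _ hs₀ ?_, hs⟩
    intro y hy
    have h1 : IsUnit ((algebraMap ℂ (NG Γ)) (m : ℂ)) :=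
      (isUnit_iff_ne_zero.2 (Nat.cast_ne_zero.2 hm.ne')).map (algebraMap ℂ (NG Γ))
    have h2 : (algebraMap ℂ (NG Γ)) (m : ℂ) = (m : NG Γ) := map_natCast _ m
    rw [h2] at h1
    exact h1.mul_left_eq_zero.1 hy
  exact key

/-- all the groups which are locally and virtually embedded in `W (Oc G)` -/
theorem has_o {V : Type} [Fintype V] [LinearOrder V] (G : SimpleGraph V) (i : ℕ) (hi : 0 < i)
    (hAc : ∀ τ : Finset V, G.IsClique (τ : Set V) → Ac G (lkS G τ) i) (Γ : Type) [Group Γ]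
    (H : VE Γ (W (Oc G))) : HasL2Betti Γ i 0 := by
  obtain ⟨n, rfl⟩ : ∃ n, i = n + 1 := ⟨i - 1, by omega⟩
  have h1 := hasL2Betti Γ (n + 1)
  rwa [betti_o G n hAc Γ H] at h1

end Pool.Agent.H6.RB
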