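import Pool.Agent.H6.RB.Defs

/-!
# Project RB (helper6): vanishing of the cohomology of `L` if the obstruction of `OL` vanishes
-/

set_option autoImplicit false

namespace Pool.Agent.H6.RB

open Finset Pool.Agent.W555.KS Pool.Agent.R782.Bal Pool.Agent.H6.RA Pool.Agent.W907.SG Pool.Agent.Y131.KS

theorem co_van (h1 : S_FF) (h2 : S_SYM) (h3 : S_SUP) (h4 : S_CYC) (h5 : S_EVAL) (h6 : S_TRANS) (h7 : S_EXT)
    (h8 : S_DUAL) {V : Type} [Fintype V] [LinearOrder V] (G : SimpleGraph V) (C : Set V) (d : ℕ)
    (hO : ∀ D, 2 * (d + 1) ≤ D → ∀ (n : ℕ) (e : (V ×ₗ Bool) ≃ Fin n), VK2 (clF (Oc G) e) D) :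
    ∀ i, d ≤ i → Co G C i := by
  -- downward induction
  have key : ∀ m i, d ≤ i → Fintype.card V ≤ i + m → Co G C i := by
    intro m
    induction m with
    | zero =>
      intro i _ hi r _
      refine ⟨0, fun T _ hT => ?_⟩
      have := card_le_univ T
      omega
    | succ m ih =>
      intro i hdi hi
      by_contra hco
      obtain ⟨r, c, hr, hc, hrc⟩ := h8 V G C i hco
      obtain ⟨F, hF0, hF1, hF2⟩ := h7 V G C i r hr (fun i' hi' => ih i' (by omega) (by omega))
      obtain ⟨f, hf, hfF⟩ := h1 V G C i F hF0 hF2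
      have e1 := h6 (V ×ₗ Bool) (Oc G) (2 * (i + 1)) (fun n e => hO _ (by omega) n e) (Zf i c f)
        (h2 V G C i c f hc hf) (h3 V G C i c f hc) (by
          intro ρ τ hd _
          rw [sum_add_distrib, h4 V G C i c f hc hf ρ τ hd, zero_add]
          have h9 := h4 V G C i c f hc hf τ ρ hd.symm
          rw [union_comm] at h9
          rw [← h9]
          exact sum_congr rfl fun x _ => h2 V G C i c f hc hf _ _)
      rw [h5 V G C i c f hc hf] at e1
      apply hrc
      rw [← e1]
      refine sum_congr rfl fun T _ => ?_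
      by_cases hT : c T = 0
      · rw [hT, zero_mul, zero_mul, zero_mul]
      · obtain ⟨hS, hcard⟩ := hc.supp T hT
        rw [hfF T hS, hF1 T hS hcard]
        have h10 : ∀ x : ZMod 2, x * x = x := by decide
        rw [h10]
  intro i hi
  exact key (Fintype.card V) i hi (by omega)

end Pool.Agent.H6.RB
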