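import Pool.Agent.H6.RB.Defs2

/-!
# Project RB: part MV (helper75)
-/

set_option autoImplicit false

namespace Pool.Agent.H6.RB

open Finset

theorem mv_dd {V : Type} [DecidableEq V] (f : Finset V → ZMod 2) (T : Finset V) :
    ∑ v ∈ T, ∑ w ∈ T.erase v, f ((T.erase v).erase w) = 0 := by
  rw [Finset.sum_sigma']
  refine Finset.sum_involution (fun x _ => ⟨x.2, x.1⟩) ?_ ?_ ?_ ?_
  · rintro ⟨v, w⟩ _
    show f ((T.erase v).erase w) + f ((T.erase w).erase v) = 0
    rw [Finset.erase_right_comm]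
    exact CharTwo.add_self_eq_zero _
  · rintro ⟨v, w⟩ h _ h2
    rw [Finset.mem_sigma] at h
    have h3 : w ≠ v := Finset.ne_of_mem_erase h.2
    have h4 : w = v := congrArg Sigma.fst h2
    exact h3 h4
  · rintro ⟨v, w⟩ h
    rw [Finset.mem_sigma] at h ⊢
    have h3 : w ≠ v := Finset.ne_of_mem_erase h.2
    exact ⟨Finset.mem_of_mem_erase h.2, Finset.mem_erase.2 ⟨h3.symm, h.1⟩⟩
  · rintro ⟨v, w⟩ _
    rfl

theorem mv : S_MV := by
  intro V _ _ G C a k haC h1 h2 r hr
  obtain ⟨b1, hb1⟩ := h1 r fun T hT hc => hr T ⟨hT.1, fun x hx => (hT.2 hx).1⟩ hc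
  obtain ⟨r', hr'⟩ : ∃ r' : Finset V → ZMod 2, r' = fun T => r T - ∑ v ∈ T, b1 (T.erase v) :=
    ⟨_, rfl⟩
  have hr'T : ∀ T, r' T = r T - ∑ v ∈ T, b1 (T.erase v) := fun T => by rw [hr']
  have hz : ∀ T, Sx G (C \ {a}) T → T.card = k + 1 → r' T = 0 := by
    intro T hT hc
    rw [hr'T, hb1 T hT hc, sub_self]
  have hco : ∀ T, Sx G C T → T.card = k + 2 → ∑ v ∈ T, r' (T.erase v) = 0 := by
    intro T hT hc
    simp_rw [hr'T]
    rw [Finset.sum_sub_distrib, hr T hT hc, mv_dd, sub_zero]
  -- simplices of the link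
  have hins : ∀ T, Sx G (C ∩ {v | G.Adj a v}) T → a ∉ T ∧ Sx G C (insert a T) := by
    intro T hT
    have ha : a ∉ T := fun h => G.loopless.irrefl a (hT.2 h).2
    refine ⟨ha, ?_, ?_⟩
    · rw [Finset.coe_insert]
      refine hT.1.insert fun b hb _ => (hT.2 hb).2
    · rw [Finset.coe_insert]
      exact Set.insert_subset haC fun x hx => (hT.2 hx).1
  have hsz : ∀ T, Sx G (C ∩ {v | G.Adj a v}) T → Sx G (C \ {a}) T := by
    intro T hT
    refine ⟨hT.1, fun x hx => ⟨(hT.2 hx).1, ?_⟩⟩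
    rintro rfl
    exact (hins T hT).1 hx
  obtain ⟨e, he⟩ := h2 (fun T => r' (insert a T)) (by
    intro T hT hc
    obtain ⟨ha, hU⟩ := hins T hT
    have h3 := hco (insert a T) hU (by rw [Finset.card_insert_of_notMem ha, hc])
    rw [Finset.sum_insert ha, Finset.erase_insert ha, hz T (hsz T hT) hc, zero_add] at h3
    rw [← h3]
    refine Finset.sum_congr rfl fun v hv => ?_
    have hva : v ≠ a := fun h => ha (h ▸ hv)
    rw [Finset.erase_insert_of_ne hva.symm])
  refine ⟨fun R => b1 R + if a ∈ R then e (R.erase a) else 0, fun T hT hc => ?_⟩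
  rw [Finset.sum_add_distrib]
  have h3 : ∑ v ∈ T, (if a ∈ T.erase v then e ((T.erase v).erase a) else 0) = r' T := by
    by_cases ha : a ∈ T
    · obtain ⟨T', hT'⟩ : ∃ T', T' = T.erase a := ⟨_, rfl⟩
      have haT' : a ∉ T' := by rw [hT']; exact Finset.notMem_erase a T
      have hTi : T = insert a T' := by rw [hT', Finset.insert_erase ha]
      have hc' : T'.card = k := by
        rw [hTi, Finset.card_insert_of_notMem haT'] at hc
        omega
      have hlink : Sx G (C ∩ {v | G.Adj a v}) T' := by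
        refine ⟨hT.1.subset (by rw [hT']; exact_mod_cast Finset.erase_subset a T), fun x hx => ?_⟩
        have hxT : x ∈ T := by
          rw [hT'] at hx
          exact Finset.mem_of_mem_erase (Finset.mem_coe.1 hx)
        refine ⟨hT.2 (Finset.mem_coe.2 hxT), hT.1 (Finset.mem_coe.2 ha) (Finset.mem_coe.2 hxT) ?_⟩
        rintro rfl
        exact haT' (Finset.mem_coe.1 hx)
      have h4 := he T' hlink hc'
      rw [hTi, Finset.sum_insert haT', Finset.erase_insert haT', if_neg haT', zero_add]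
      rw [← h4]
      refine Finset.sum_congr rfl fun v hv => ?_
      have hva : v ≠ a := fun h => haT' (h ▸ hv)
      rw [Finset.erase_insert_of_ne hva.symm, if_pos (Finset.mem_insert_self _ _),
        Finset.erase_insert (fun h => haT' (Finset.mem_of_mem_erase h))]
    · have h4 : Sx G (C \ {a}) T := by
        refine ⟨hT.1, fun x hx => ⟨hT.2 hx, ?_⟩⟩
        rintro rfl
        exact ha (Finset.mem_coe.1 hx)
      rw [hz T h4 hc]
      refine Finset.sum_eq_zero fun v _ => ?_
      rw [if_neg fun h => ha (Finset.mem_of_mem_erase h)]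
  rw [h3, hr'T]
  ring

end Pool.Agent.H6.RB
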