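import Pool.Agent.H6.RB.Defs

/-! # RB-RAT (helper61): vanishing mod 2 cohomology gives vanishing rational homology -/

set_option autoImplicit false

noncomputable section

namespace Pool.Agent.H6.RB

open Finset Pool.Agent.H6.RA Pool.Agent.W907.SG

namespace RatP

variable {V : Type} [Fintype V] [LinearOrder V]

/-- the integral coboundary -/
def cb (B : Finset V → ℤ) (T : Finset V) : ℤ := ∑ v ∈ T, sg v (T.erase v) * B (T.erase v)

omit [Fintype V] in
lemma cb_cb (B : Finset V → ℤ) (T : Finset V) : cb (cb B) T = 0 := by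
  set g : V → V → ℤ := fun v w => if w = v then 0 else
    sg v (T.erase v) * (sg w ((T.erase v).erase w) * B ((T.erase v).erase w)) with hg
  have h1 : cb (cb B) T = ∑ v ∈ T, ∑ w ∈ T, g v w := by
    unfold cb
    refine sum_congr rfl fun v hv => ?_
    rw [mul_sum, ← Finset.add_sum_erase T (g v) hv]
    have h0 : g v v = 0 := by simp [hg]
    rw [h0, zero_add]
    refine sum_congr rfl fun w hw => ?_
    simp only [hg]
    rw [if_neg (ne_of_mem_erase hw)]
  have h2 : ∀ v ∈ T, ∀ w ∈ T, g v w = - g w v := by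
    intro v hv w hw
    by_cases h : w = v
    · subst h; simp [hg]
    · simp only [hg]
      rw [if_neg h, if_neg (Ne.symm h)]
      have h3 : (T.erase w).erase v = (T.erase v).erase w := erase_right_comm
      rw [h3]
      generalize hR : (T.erase v).erase w = R
      have hwR : w ∉ R := by rw [← hR]; simp
      have hvR : v ∉ R := by rw [← hR]; simp
      have h4 : T.erase v = insert w R := by rw [← hR, insert_erase (mem_erase.2 ⟨h, hw⟩)]
      have h5 : T.erase w = insert v R := by
        rw [← hR, ← h3, insert_erase (mem_erase.2 ⟨Ne.symm h, hv⟩)]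
      rw [h4, h5]
      have := sg_swap v w R (Ne.symm h) hvR hwR
      rw [← mul_assoc, this]
      ring
  have h3 : ∑ v ∈ T, ∑ w ∈ T, g v w = - ∑ v ∈ T, ∑ w ∈ T, g v w := by
    conv_lhs => rw [sum_comm]
    rw [← sum_neg_distrib]
    refine sum_congr rfl fun v hv => ?_
    rw [← sum_neg_distrib]
    exact sum_congr rfl fun w hw => h2 w hw v hv
  rw [h1]
  omega

/-- coboundaries are orthogonal to cycles -/
lemma pair_cb (B a : Finset V → ℤ) (ha : ∀ S : Finset V, ∑ v ∈ Sᶜ, sg v S * a (insert v S) = 0) :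
    ∑ T, cb B T * a T = 0 := by
  have h1 : ∑ T, cb B T * a T = ∑ S : Finset V, B S * ∑ v ∈ Sᶜ, sg v S * a (insert v S) := by
    unfold cb
    simp only [sum_mul, mul_sum]
    rw [Finset.sum_sigma', Finset.sum_sigma']
    refine Finset.sum_bij' (fun x _ => ⟨x.1.erase x.2, x.2⟩) (fun x _ => ⟨insert x.2 x.1, x.2⟩)
      ?_ ?_ ?_ ?_ ?_
    · rintro ⟨T, v⟩ h
      simp
    · rintro ⟨S, v⟩ h
      simp
    · rintro ⟨T, v⟩ h
      simp only [mem_sigma, mem_univ, true_and] at h
      simp [insert_erase h]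
    · rintro ⟨S, v⟩ h
      simp only [mem_sigma, mem_univ, true_and, mem_compl] at h
      simp [erase_insert h]
    · rintro ⟨T, v⟩ h
      simp only [mem_sigma, mem_univ, true_and] at h
      simp only [insert_erase h]
      ring
  rw [h1]
  exact sum_eq_zero fun S _ => by rw [ha S, mul_zero]

omit [Fintype V] in
lemma sg_two (v : V) (T : Finset V) : ((sg v T : ℤ) : ZMod 2) = 1 := by
  rcases sg_eq_or v T with h | h
  · rw [h]; simp
  · rw [h]; decide

omit [Fintype V] in
lemma cb_two (B : Finset V → ℤ) (T : Finset V) :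
    ((cb B T : ℤ) : ZMod 2) = ∑ v ∈ T, ((B (T.erase v) : ℤ) : ZMod 2) := by
  unfold cb
  rw [Int.cast_sum]
  refine sum_congr rfl fun v _ => ?_
  rw [Int.cast_mul, sg_two, one_mul]

omit [Fintype V] in
lemma Sx_erase {G : SimpleGraph V} {C : Set V} {T : Finset V} (h : Sx G C T) (v : V) :
    Sx G C (T.erase v) :=
  ⟨h.1.subset (by exact_mod_cast erase_subset v T),
    fun x hx => h.2 (by exact_mod_cast erase_subset v T (by exact_mod_cast hx))⟩

lemma dvd_pair {G : SimpleGraph V} {C : Set V} {i : ℕ} (h : Co G C i) (a : Finset V → ℤ)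
    (ha : ∀ S : Finset V, ∑ v ∈ Sᶜ, sg v S * a (insert v S) = 0)
    (hs : ∀ T, ¬ (Sx G C T ∧ T.card = i + 1) → a T = 0) (N : ℕ) :
    ∀ r : Finset V → ℤ, (∀ T, Sx G C T → T.card = i + 2 → cb r T = 0) →
      (2 : ℤ) ^ N ∣ ∑ T, r T * a T := by
  induction N with
  | zero => intro r _; simp
  | succ N ih =>
    intro r hr
    obtain ⟨b, hb⟩ := h (fun T => ((r T : ℤ) : ZMod 2)) (fun T hT hc => by
      rw [← cb_two, hr T hT hc, Int.cast_zero])
    set B : Finset V → ℤ := fun T => ((b T).val : ℤ) with hB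
    have hBb : ∀ T, ((B T : ℤ) : ZMod 2) = b T := fun T => by
      rw [hB]
      simp
    have h1 : ∀ T, Sx G C T → T.card = i + 1 → (2 : ℤ) ∣ r T - cb B T := by
      intro T hT hc
      have h2 : ((r T - cb B T : ℤ) : ZMod 2) = 0 := by
        rw [Int.cast_sub, cb_two]
        simp only [hBb]
        rw [hb T hT hc, sub_self]
      exact_mod_cast (ZMod.intCast_zmod_eq_zero_iff_dvd _ 2).1 h2
    set r1 : Finset V → ℤ := fun T => (r T - cb B T) / 2 with hr1
    have h2 : ∀ T, Sx G C T → T.card = i + 1 → r T = cb B T + 2 * r1 T := by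
      intro T hT hc
      have := Int.mul_ediv_cancel' (h1 T hT hc)
      rw [hr1]
      simp only
      rw [this]
      ring
    have h3 : ∀ T, Sx G C T → T.card = i + 2 → cb r1 T = 0 := by
      intro T hT hc
      have h4 : cb r T = cb (cb B) T + 2 * cb r1 T := by
        unfold cb
        rw [mul_sum, ← sum_add_distrib]
        refine sum_congr rfl fun v hv => ?_
        rw [h2 (T.erase v) (Sx_erase hT v) (by rw [card_erase_of_mem hv]; omega)]
        unfold cb
        ring
      rw [hr T hT hc, cb_cb] at h4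
      omega
    have h5 : ∑ T, r T * a T = ∑ T, cb B T * a T + 2 * ∑ T, r1 T * a T := by
      rw [mul_sum, ← sum_add_distrib]
      refine sum_congr rfl fun T _ => ?_
      by_cases hT : Sx G C T ∧ T.card = i + 1
      · rw [h2 T hT.1 hT.2]; ring
      · rw [hs T hT]; simp
    rw [h5, pair_cb B a ha, zero_add, pow_succ, mul_comm ((2 : ℤ) ^ N)]
    exact mul_dvd_mul_left 2 (ih r1 h3)

lemma pair_zero {G : SimpleGraph V} {C : Set V} {i : ℕ} (h : Co G C i) (a : Finset V → ℤ)
    (ha : ∀ S : Finset V, ∑ v ∈ Sᶜ, sg v S * a (insert v S) = 0)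
    (hs : ∀ T, ¬ (Sx G C T ∧ T.card = i + 1) → a T = 0)
    (r : Finset V → ℤ) (hr : ∀ T, Sx G C T → T.card = i + 2 → cb r T = 0) :
    ∑ T, r T * a T = 0 := by
  by_contra hne
  set x := ∑ T, r T * a T with hx
  have h1 := dvd_pair h a ha hs x.natAbs r hr
  rw [← hx] at h1
  have h2 := Int.natAbs_dvd_natAbs.2 h1
  have h3 := Nat.le_of_dvd (Int.natAbs_pos.2 hne) h2
  rw [Int.natAbs_pow] at h3
  have h4 : x.natAbs < 2 ^ x.natAbs := Nat.lt_two_pow_self
  have h5 : (2 : ℤ).natAbs = 2 := rfl
  rw [h5] at h3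
  omega

omit [LinearOrder V] in
lemma clear (f : Finset V → ℚ) : ∃ (N : ℤ) (F : Finset V → ℤ), N ≠ 0 ∧ ∀ T, (F T : ℚ) = N * f T := by
  obtain ⟨b, hb⟩ := IsLocalization.exist_integer_multiples_of_finite (nonZeroDivisors ℤ) f
  choose F hF using hb
  refine ⟨b, F, nonZeroDivisors.coe_ne_zero b, fun T => ?_⟩
  have := hF T
  rw [zsmul_eq_mul] at this
  simpa using this

end RatP

open RatP in
theorem rat : S_RAT := by
  intro V _ _ G C i h a hQ hb
  classical
  by_contra hne
  set P : Finset V → Prop := fun T => Sx G C T ∧ T.card = i + 2 with hP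
  let g : (Finset V → ℚ) →ₗ[ℚ] (Finset V → ℚ) :=
    { toFun := fun b => bq (fun T => if P T then b T else 0)
      map_add' := by
        intro x y
        funext T
        simp only [bq, Pi.add_apply]
        rw [← sum_add_distrib]
        refine sum_congr rfl fun v _ => ?_
        split_ifs <;> ring
      map_smul' := by
        intro c x
        funext T
        simp only [bq, Pi.smul_apply, smul_eq_mul, RingHom.id_apply]
        rw [mul_sum]
        refine sum_congr rfl fun v _ => ?_
        split_ifs <;> ring }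
  have hgap : ∀ b, g b = bq (fun T => if P T then b T else 0) := fun b => rfl
  have ha : a ∉ LinearMap.range g := by
    rintro ⟨b, hb'⟩
    refine hne ⟨fun T => if P T then b T else 0, fun T hT => ?_, hb'⟩
    have : ¬ P T := fun h' => hT ⟨h'.1.1, h'.1.2, by rw [h'.2]⟩
    simp [this]
  obtain ⟨φ, hφa, hφ⟩ := Submodule.exists_le_ker_of_notMem ha
  set ρ : Finset V → ℚ := fun T => φ (Pi.single T 1) with hρ
  have hφsum : ∀ x : Finset V → ℚ, φ x = ∑ T, ρ T * x T := by
    intro x
    conv_lhs => rw [← Finset.univ_sum_single x, map_sum]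
    refine sum_congr rfl fun T _ => ?_
    have : (Pi.single T (x T) : Finset V → ℚ) = x T • Pi.single T 1 := by
      rw [← Pi.single_smul]; simp
    rw [this, map_smul, smul_eq_mul, mul_comm]
  have hρc : ∀ T, Sx G C T → T.card = i + 2 →
      ∑ v ∈ T, (sg v (T.erase v) : ℚ) * ρ (T.erase v) = 0 := by
    intro T hT hc
    have h1 : φ (g (Pi.single T 1)) = 0 := hφ ⟨_, rfl⟩
    rw [hφsum, hgap] at h1
    rw [← h1]
    have hPT : P T := ⟨hT, hc⟩
    have h2 : (fun S => if P S then (Pi.single T 1 : Finset V → ℚ) S else 0) = Pi.single T 1 := by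
      funext S
      by_cases hS : S = T
      · subst hS; simp [hPT]
      · simp [Pi.single_eq_of_ne hS]
    rw [h2]
    unfold bq
    simp only [mul_sum]
    rw [Finset.sum_sigma']
    symm
    have h3 : ∑ x ∈ (univ : Finset (Finset V)).sigma (fun S => Sᶜ),
        ρ x.1 * ((sg x.2 x.1 : ℚ) * (Pi.single T 1 : Finset V → ℚ) (insert x.2 x.1)) =
        ∑ x ∈ T.image (fun v => (⟨T.erase v, v⟩ : (_ : Finset V) × V)),
        ρ x.1 * ((sg x.2 x.1 : ℚ) * (Pi.single T 1 : Finset V → ℚ) (insert x.2 x.1)) := by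
      symm
      apply Finset.sum_subset
      · intro x hx
        rw [mem_image] at hx
        obtain ⟨v, hv, rfl⟩ := hx
        simp
      · rintro ⟨S, v⟩ hx hn
        simp only [mem_sigma, mem_univ, true_and, mem_compl] at hx
        have h4 : insert v S ≠ T := by
          rintro rfl
          apply hn
          rw [mem_image]
          exact ⟨v, mem_insert_self _ _, by rw [erase_insert hx]⟩
        simp [Pi.single_eq_of_ne h4]
    rw [h3, Finset.sum_image]
    · refine sum_congr rfl fun v hv => ?_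
      simp only
      rw [insert_erase hv, Pi.single_eq_same, mul_one, mul_comm]
    · intro v _ w _ hvw
      simp only [Sigma.mk.injEq] at hvw
      exact eq_of_heq hvw.2
  obtain ⟨N, A, hN, hA⟩ := clear a
  obtain ⟨M, R, hM, hR⟩ := clear ρ
  have key := pair_zero h A (fun S => by
      have h1 := congrFun hb S
      simp only [bq, Pi.zero_apply] at h1
      have h2 : ((∑ v ∈ Sᶜ, sg v S * A (insert v S) : ℤ) : ℚ) = 0 := by
        push_cast
        simp only [hA]
        rw [← mul_zero (N : ℚ), ← h1, mul_sum]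
        exact sum_congr rfl fun v _ => by ring
      exact_mod_cast h2) (fun T hT => by
      have h1 : a T = 0 := hQ T fun h' => hT ⟨⟨h'.1, h'.2.1⟩, h'.2.2⟩
      have h2 := hA T
      rw [h1, mul_zero] at h2
      exact_mod_cast h2) R (fun T hT hc => by
      have h2 : ((cb R T : ℤ) : ℚ) = 0 := by
        unfold cb
        push_cast
        simp only [hR]
        rw [← mul_zero (M : ℚ), ← hρc T hT hc, mul_sum]
        exact sum_congr rfl fun v _ => by ring
      exact_mod_cast h2)
  have h3 : ((∑ T, R T * A T : ℤ) : ℚ) = M * N * φ a := by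
    rw [hφsum]
    push_cast
    simp only [hR, hA]
    rw [mul_sum]
    exact sum_congr rfl fun T _ => by ring
  rw [key, Int.cast_zero] at h3
  have h4 : (M : ℚ) ≠ 0 := by exact_mod_cast hM
  have h5 : (N : ℚ) ≠ 0 := by exact_mod_cast hN
  have : (M : ℚ) * N * φ a ≠ 0 := mul_ne_zero (mul_ne_zero h4 h5) hφa
  exact this h3.symm

end Pool.Agent.H6.RB
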