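import Pool.Agent.H6.RB.Defs

set_option autoImplicit false

/-! # Project RB: `S_TRANS` -/

noncomputable section

namespace Pool.Agent.H6.RB

open Finset Pool.Agent.W555.KS Pool.Agent.R782.Bal Pool.Agent.Y131.KS

namespace TransAux

variable {X : Type} [Fintype X] [LinearOrder X]

omit [Fintype X] in
lemma ev_map {n : ℕ} (e : Fin n ≃o X) (U : Finset (Fin n)) :
    evX (U.map e.toEquiv.toEmbedding) = (evenPart U).map e.toEquiv.toEmbedding := by
  unfold evX evenPart
  rw [Finset.filter_map]
  congr 1
  refine Finset.filter_congr fun u _ => ?_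
  simp only [Function.comp, Finset.filter_map, Finset.card_map]
  have : ∀ w, (e.toEquiv.toEmbedding w < e.toEquiv.toEmbedding u) ↔ w < u := fun w => e.lt_iff_lt
  simp only [this]

omit [Fintype X] in
lemma od_map {n : ℕ} (e : Fin n ≃o X) (U : Finset (Fin n)) :
    odX (U.map e.toEquiv.toEmbedding) = (oddPart U).map e.toEquiv.toEmbedding := by
  unfold odX oddPart
  rw [Finset.filter_map]
  congr 1
  refine Finset.filter_congr fun u _ => ?_
  simp only [Function.comp, Finset.filter_map, Finset.card_map]
  have : ∀ w, (e.toEquiv.toEmbedding w < e.toEquiv.toEmbedding u) ↔ w < u := fun w => e.lt_iff_lt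
  simp only [this]

end TransAux

open TransAux in
theorem trans : S_TRANS := by
  intro X _ _ H D hO Z hsym hsupp hcyc
  set n := Fintype.card X
  let e : Fin n ≃o X := Fintype.orderIsoFinOfCardEq X rfl
  have h := hO n e.symm.toEquiv (fun s t => Z (s.map e.toEquiv.toEmbedding) (t.map e.toEquiv.toEmbedding))
    (fun s t => hsym _ _) (fun s t hst => by
      obtain ⟨a, b⟩ := hsupp _ _ hst
      rw [mem_clF, mem_clF]
      exact ⟨a, b⟩)
    (fun ρ τ hd hc => by
      have h1 := hcyc (ρ.map e.toEquiv.toEmbedding) (τ.map e.toEquiv.toEmbedding)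
        ((Finset.disjoint_map _).2 hd) (by rw [Finset.card_map, Finset.card_map]; exact hc)
      rw [← h1]
      rw [← Finset.map_union]
      have h2 : ((ρ ∪ τ).map e.toEquiv.toEmbedding)ᶜ = ((ρ ∪ τ)ᶜ).map e.toEquiv.toEmbedding := by
        ext x
        rw [Finset.mem_compl, Finset.mem_map_equiv, Finset.mem_map_equiv, Finset.mem_compl]
      rw [h2, Finset.sum_map]
      refine Finset.sum_congr rfl fun v _ => ?_
      rw [Finset.map_insert, Finset.map_insert])
  rw [← h]
  have h3 : (univ : Finset X) = (univ : Finset (Fin n)).map e.toEquiv.toEmbedding := by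
    rw [Finset.map_univ_equiv]
  rw [h3, Finset.powersetCard_map, Finset.sum_map]
  refine Finset.sum_congr rfl fun U _ => ?_
  show Z (evX (U.map e.toEquiv.toEmbedding)) (odX (U.map e.toEquiv.toEmbedding)) = _
  rw [ev_map, od_map]

end Pool.Agent.H6.RB
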