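import Pool.Agent.H6.RB.Defs2
import Pool.Agent.H6.RB.TRANS

/-!
# Project RB: part TRN
-/

set_option autoImplicit false

namespace Pool.Agent.H6.RB

open Finset Pool.Agent.W555.KS Pool.Agent.R782.Bal Pool.Agent.H6.RA Pool.Agent.W907.SG Pool.Agent.Y131.KS

theorem evR_map {X Y : Type} [DecidableEq X] [LinearOrder Y] (g : Y ↪ X) (ρ : X → ℕ)
    (hρ : ∀ y y', ρ (g y) < ρ (g y') ↔ y < y') (U : Finset Y) : evR ρ (U.map g) = (evX U).map g := by
  unfold evR evX
  rw [filter_map]
  congr 1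
  refine filter_congr fun u _ => ?_
  show Even ((U.map g).filter (fun w => ρ w < ρ (g u))).card ↔ _
  rw [filter_map, card_map]
  have h : (U.filter ((fun w => ρ w < ρ (g u)) ∘ g)) = U.filter (fun w => w < u) :=
    filter_congr fun w _ => hρ w u
  rw [h]

theorem odR_map {X Y : Type} [DecidableEq X] [LinearOrder Y] (g : Y ↪ X) (ρ : X → ℕ)
    (hρ : ∀ y y', ρ (g y) < ρ (g y') ↔ y < y') (U : Finset Y) : odR ρ (U.map g) = (odX U).map g := by
  unfold odR odX
  rw [filter_map]
  congr 1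
  refine filter_congr fun u _ => ?_
  show ¬ Even ((U.map g).filter (fun w => ρ w < ρ (g u))).card ↔ _
  rw [filter_map, card_map]
  have h : (U.filter ((fun w => ρ w < ρ (g u)) ∘ g)) = U.filter (fun w => w < u) :=
    filter_congr fun w _ => hρ w u
  rw [h]

theorem trn_aux {X Y : Type} [Fintype X] [DecidableEq X] [Fintype Y] [LinearOrder Y] (g : Y ↪ X) (H : SimpleGraph X)
    (q : ℕ) (ρ : X → ℕ) (Z : Finset X → Finset X → ZMod 2) (hρ : ∀ y y', ρ (g y) < ρ (g y') ↔ y < y')
    (hG : Gd H (Set.range g) q ρ Z) (hO : ∀ (n : ℕ) (e : Y ≃ Fin n), VK2 (clF (H.comap g) e) (2 * q)) : False := by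
  have hcl : ∀ σ : Finset Y, H.IsClique ((σ.map g : Finset X) : Set X) → (H.comap g).IsClique (σ : Set Y) := by
    intro σ h x hx y hy hxy
    refine h ?_ ?_ fun e => hxy (g.injective e)
    · exact mem_coe.2 (mem_map_of_mem g (mem_coe.1 hx))
    · exact mem_coe.2 (mem_map_of_mem g (mem_coe.1 hy))
  have key : ∀ σ τ : Finset Y, Disjoint σ τ → ∑ x ∈ (σ ∪ τ)ᶜ, Z ((insert x σ).map g) (τ.map g) = 0 := by
    intro σ τ hd
    rw [← hG.cyc (σ.map g) (τ.map g) ((disjoint_map g).2 hd)]
    refine sum_of_injOn g g.injective.injOn ?_ ?_ ?_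
    · intro x hx
      rw [mem_coe, mem_compl, mem_union] at hx ⊢
      rw [mem_map', mem_map']
      exact hx
    · intro x hx hx2
      by_contra h
      obtain ⟨y, rfl⟩ := (hG.supp _ _ h).1.2.2 (mem_coe.2 (mem_insert_self x _))
      apply hx2
      refine ⟨y, ?_, rfl⟩
      rw [mem_coe, mem_compl, mem_union]
      rw [mem_compl, mem_union, mem_map', mem_map'] at hx
      exact hx
    · intro x _
      rw [map_insert]
  have h1 := trans Y (H.comap g) (2 * q) hO (fun σ τ => Z (σ.map g) (τ.map g)) (fun σ τ => hG.symm _ _)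
    (fun σ τ h => ⟨hcl σ (hG.supp _ _ h).1.1, hcl τ (hG.supp _ _ h).2.1⟩) (by
      intro σ τ hd _
      rw [sum_add_distrib, key σ τ hd, zero_add]
      have h9 := key τ σ hd.symm
      rw [union_comm] at h9
      rw [← h9]
      exact sum_congr rfl fun x _ => hG.symm _ _)
  apply hG.ev
  rw [← h1]
  symm
  refine sum_of_injOn (fun U => U.map g) ((map_injective g).injOn) ?_ ?_ ?_
  · intro U hU
    rw [mem_coe, mem_powersetCard] at hU ⊢
    exact ⟨subset_univ _, by rw [card_map]; exact hU.2⟩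
  · intro U hU hU2
    by_contra h
    obtain ⟨⟨_, _, h2⟩, ⟨_, _, h3⟩⟩ := hG.supp _ _ h
    have h4 : U ⊆ (univ : Finset Y).map g := by
      intro x hx
      have h5 : x ∈ Set.range g := by
        by_cases h6 : Even (U.filter (fun w => ρ w < ρ x)).card
        · exact h2 (mem_coe.2 (mem_filter.2 ⟨hx, h6⟩))
        · exact h3 (mem_coe.2 (mem_filter.2 ⟨hx, h6⟩))
      obtain ⟨y, rfl⟩ := h5
      exact mem_map_of_mem g (mem_univ y)
    obtain ⟨U', _, rfl⟩ := subset_map_iff.1 h4
    apply hU2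
    refine ⟨U', ?_, rfl⟩
    rw [mem_powersetCard, card_map] at hU
    rw [mem_coe, mem_powersetCard]
    exact ⟨subset_univ _, hU.2⟩
  · intro U _
    show Z ((evX U).map g) ((odX U).map g) = Z (evR ρ (U.map g)) (odR ρ (U.map g))
    rw [evR_map g ρ hρ, odR_map g ρ hρ]

theorem trn : S_TRN := by
  intro X _ _ H S q ρ Z hO hG
  classical
  letI : LinearOrder ↥S := LinearOrder.lift' (fun x : ↥S => ρ x.1) (fun x y h => Subtype.ext (hG.inj h))
  have hr : Set.range (Function.Embedding.subtype (fun x => x ∈ S)) = S := Subtype.range_coe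
  refine trn_aux (Function.Embedding.subtype (fun x => x ∈ S)) H q ρ Z (fun y y' => Iff.rfl) ?_ ?_
  · rw [hr]
    exact hG
  · exact hO

end Pool.Agent.H6.RB
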